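import Mathlib

/-! The function fields of `SL n` and of its quotients by central subgroups. -/

namespace Pool.Agent.Work.MP_274868_ag.Cay

open Matrix

variable (k : Type*) [Field k] (n : Type) [Fintype n] [DecidableEq n]

/-- the ideal generated by the determinant minus one -/
noncomputable def rel : Ideal (MvPolynomial (n × n) k) :=
  Ideal.span {(mvPolynomialX n n k).det - 1}

/-- the coordinate ring of `SL n` -/
def Aff : Type _ := MvPolynomial (n × n) k ⧸ rel k n

noncomputable instance affRing : CommRing (Aff k n) := Ideal.Quotient.commRing (rel k n)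

noncomputable instance affAlg : Algebra k (Aff k n) := Ideal.Quotient.algebra k

/-- the matrix of coordinate functions on `SL n` -/
noncomputable def acoord : Matrix n n (Aff k n) :=
  of fun i j => Ideal.Quotient.mk (rel k n) (MvPolynomial.X (i, j))

variable {k n}

theorem exists_lift {S : Type*} [CommRing S] [Algebra k S] (g : Matrix n n S) (hg : g.det = 1) :
    ∃ φ : Aff k n →ₐ[k] S, (acoord k n).map φ = g := by
  refine ⟨Ideal.Quotient.liftₐ (rel k n) (MvPolynomial.aeval fun q => g q.1 q.2) fun a ha => ?_,
    Matrix.ext fun i j => MvPolynomial.aeval_X (fun q : n × n => g q.1 q.2) (i, j)⟩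
  obtain ⟨b, rfl⟩ := Ideal.mem_span_singleton'.1 ha
  rw [map_mul, map_sub, map_one, AlgHom.map_det, mvPolynomialX_mapMatrix_aeval, hg, sub_self,
    mul_zero]

theorem aff_ext {S : Type*} [CommRing S] [Algebra k S] {f g : Aff k n →ₐ[k] S}
    (h : (acoord k n).map f = (acoord k n).map g) : f = g :=
  Ideal.Quotient.algHom_ext k (MvPolynomial.algHom_ext fun q => congrFun (congrFun h q.1) q.2)

theorem det_acoord : (acoord k n).det = 1 :=
  (RingHom.map_det (Ideal.Quotient.mk (rel k n)) (mvPolynomialX n n k)).symm.trans
    (Ideal.Quotient.eq.2 (Ideal.subset_span rfl))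

instance affDomain [Nonempty n] : IsDomain (Aff k n) := by
  obtain ⟨z⟩ := ‹Nonempty n›
  set D := (mvPolynomialX n n k).det with hD
  have h0 := powers_le_nonZeroDivisors_of_noZeroDivisors (det_mvPolynomialX_ne_zero n k)
  let R := Localization.Away D
  have : IsDomain R := IsLocalization.isDomain_localization h0
  let ι := algebraMap (MvPolynomial (n × n) k) R
  let d : R := IsLocalization.Away.invSelf D
  have hd : ι D * d = 1 := IsLocalization.Away.mul_invSelf D
  obtain ⟨φ, hφ⟩ := exists_lift (k := k) (ι.mapMatrix (mvPolynomialX n n k) *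
    diagonal fun j => if j = z then d else 1) (by
      rw [det_mul, ← RingHom.map_det, det_diagonal, Finset.prod_ite_eq']
      simpa using hd)
  let π : MvPolynomial (n × n) k →+* Aff k n := Ideal.Quotient.mk (rel k n)
  have h1 : π D = 1 := Ideal.Quotient.eq.2 (Ideal.subset_span rfl)
  let ψ : R →+* Aff k n := IsLocalization.Away.lift D (h1 ▸ isUnit_one)
  have hψ : ∀ p, ψ (ι p) = π p := IsLocalization.Away.lift_eq D _
  have h2 : ψ d = 1 := by
    have := congrArg ψ hd
    rwa [map_mul, hψ, h1, one_mul, map_one] at this
  let ψ' : R →ₐ[k] Aff k n := ⟨ψ, fun c => hψ (.C c)⟩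
  have h3 : ψ'.comp φ = AlgHom.id k _ := aff_ext (Matrix.ext fun i j => by
    show ψ (((acoord k n).map φ) i j) = _
    rw [hφ, mul_diagonal, map_mul]
    refine (congrArg (· * _) (hψ _)).trans ?_
    split_ifs <;> simp only [h2, map_one, mul_one] <;> rfl)
  exact (Function.LeftInverse.injective (g := ψ') (DFunLike.congr_fun h3)).isDomain φ.toRingHom

variable (k n)

/-- the function field of `SL n` -/
abbrev Fn : Type _ := FractionRing (Aff k n)

/-- the generic matrix of determinant one -/
noncomputable def gen : Matrix n n (Fn k n) := (acoord k n).map (algebraMap (Aff k n) (Fn k n))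

variable {k n}

/-- conjugation by a matrix of determinant one -/
def conj {S : Type*} [CommRing S] [Algebra k S] (h : SpecialLinearGroup n k) (Y : Matrix n n S) :
    Matrix n n S := h.1.map (algebraMap k S) * Y * (h⁻¹).1.map (algebraMap k S)

/-- the subfield generated by the entries of a matrix -/
noncomputable def entries (k : Type*) [Field k] {K : Type*} [Field K] [Algebra k K]
    (Y : Matrix n n K) : IntermediateField k K :=
  IntermediateField.adjoin k (Set.range fun q : n × n => Y q.1 q.2)

/-- the subfield generated by the products of `d` entries of a matrix; for a generic point of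
`SL n` this is the function field of the quotient of `SL n` by the scalar `d`-th roots of unity -/
noncomputable def quot (k : Type*) [Field k] {K : Type*} [Field K] [Algebra k K]
    (X : Matrix n n K) (d : ℕ) : IntermediateField k K :=
  IntermediateField.adjoin k (Set.range fun f : Fin d → n × n => ∏ l, X (f l).1 (f l).2)

/-- `X` is a generic point of `SL n`: the polynomials vanishing at its entries are the multiples
of the determinant minus one -/
def IsGeneric (k : Type*) [Field k] {K : Type*} [Field K] [Algebra k K] (X : Matrix n n K) : Prop :=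
  ∀ f : MvPolynomial (n × n) k,
    MvPolynomial.aeval (fun q : n × n => X q.1 q.2) f = 0 ↔ (mvPolynomialX n n k).det - 1 ∣ f

/-- `Y` is traceless and conjugating the generic matrix conjugates `Y` -/
def IsEquivariant [Nonempty n] (Y : Matrix n n (Fn k n)) : Prop :=
  Y.trace = 0 ∧ ∀ h : SpecialLinearGroup n k, ∃ σ : Fn k n →ₐ[k] Fn k n,
    (gen k n).map σ = conj h (gen k n) ∧ Y.map σ = conj h Y

end Pool.Agent.Work.MP_274868_ag.Cay
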