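import Pool.Agent.Work.MP_274868_ag.Cay.Defs
import Mathlib

-- merged part: Pool.Agent.Work.MP_274868_ag.Cay.Emb
section
/-! The generic matrix in diagonal form. -/

namespace Pool.Agent.Work.MP_274868_ag.Cay

open Matrix Finset Polynomial

variable {n : Type} [Fintype n] [DecidableEq n]

/-- the conjugate of a diagonal matrix -/
noncomputable def dg {S : Type*} [CommRing S] (P : Matrix n n S) (t : n → S) : Matrix n n S :=
  P * diagonal t * P⁻¹

section
variable {S T : Type*} [CommRing S] [CommRing T] {P : Matrix n n S} (hP : IsUnit P.det)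
include hP

theorem inv_map (f : S →+* T) : P⁻¹.map f = (P.map f)⁻¹ :=
  (inv_eq_right_inv (by rw [← Matrix.map_mul, mul_nonsing_inv _ hP]; simp)).symm

theorem dg_map (f : S →+* T) (t : n → S) : (dg P t).map f = dg (P.map f) (f ∘ t) := by
  rw [dg, Matrix.map_mul, Matrix.map_mul, inv_map hP, diagonal_map (map_zero f)]
  rfl

theorem dg_mul (t : n → S) : dg P t * P = P * diagonal t := nonsing_inv_mul_cancel_right _ _ hP

theorem eq_dg {A : Matrix n n S} {t : n → S} (h : A * P = P * diagonal t) : A = dg P t := by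
  rw [dg, ← h, mul_nonsing_inv_cancel_right _ _ hP]

theorem det_dg (t : n → S) : (dg P t).det = ∏ l, t l := by
  rw [dg, det_mul_comm, nonsing_inv_mul_cancel_left _ _ hP, det_diagonal]

end

theorem exists_eig {F : Type*} [Field F] {A : Matrix n n F} {d : n → F}
    (hd : Function.Injective d) (h : A.charpoly = ∏ i, (X - C (d i))) :
    ∃ P : Matrix n n F, IsUnit P.det ∧ A * P = P * diagonal d := by
  have h1 : ∀ i, ∃ v ≠ 0, A *ᵥ v = d i • v := fun i => by
    obtain ⟨v, h0, hv⟩ := (exists_mulVec_eq_zero_iff (M := scalar _ (d i) - A)).2 (by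
      rw [← eval_charpoly, h, eval_prod]
      exact prod_eq_zero (mem_univ i) (by simp))
    refine ⟨v, h0, ?_⟩
    rw [sub_mulVec, sub_eq_zero] at hv
    rw [← hv]
    ext l
    simp [mulVec_diagonal]
  choose v h0 hv using h1
  refine ⟨(of v)ᵀ, (isUnit_iff_isUnit_det _).1 (linearIndependent_cols_iff_isUnit.1
    (Module.End.eigenvectors_linearIndependent' (toLin' A) d hd v fun i =>
      ⟨Module.End.mem_eigenspace_iff.2 (hv i), h0 i⟩)), ?_⟩
  ext l i
  have := congrFun (hv i) l
  rw [mul_diagonal, mul_comm]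
  exact this

theorem sep_iff {S F : Type*} [CommRing S] [Field F] [CharZero F] (A : Matrix n n S) (f : S →+* F) :
    f (resultant A.charpoly (derivative A.charpoly) (Fintype.card n) (Fintype.card n - 1)) ≠ 0 ↔
      (A.map f).charpoly.Separable := by
  have h1 := resultant_eq_zero_iff (f := (A.map f).charpoly) (g := derivative (A.map f).charpoly)
  rw [natDegree_derivative, charpoly_natDegree_eq_dim] at h1
  rw [← resultant_map_map, ← derivative_map, ← charpoly_map, Ne, h1, Separable]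
  simp [(charpoly_monic _).ne_zero]

variable {k : Type*} [Field k]

omit [DecidableEq n] in
theorem exists_roots {L : Type*} [Field L] [IsAlgClosed L] {f : L[X]} (hm : f.Monic)
    (hs : f.Separable) (hd : f.natDegree = Fintype.card n) :
    ∃ g : n → L, Function.Injective g ∧ f = ∏ l, (X - C (g l)) := by
  classical
  have h3 := nodup_roots hs
  obtain ⟨g⟩ : Nonempty (n ≃ f.roots.toFinset) := Fintype.card_eq.1 (by
    rw [Fintype.card_coe, Multiset.toFinset_card_of_nodup h3,
      ← (IsAlgClosed.splits f).natDegree_eq_card_roots, hd])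
  refine ⟨fun l => g l, Subtype.val_injective.comp g.injective, ?_⟩
  rw [g.prod_comp fun x => X - C (x : L), prod_coe_sort _ fun x => X - C x,
    prod_eq_multiset_prod, Multiset.toFinset_val, h3.dedup]
  exact (IsAlgClosed.splits f).eq_prod_roots_of_monic hm

omit [DecidableEq n] in
theorem exists_point [CharZero k] [Nonempty n] :
    ∃ d : n → k, Function.Injective d ∧ ∏ l, d l = 1 := by
  let e := Fintype.equivFin n
  have h0 : ∏ j, (2 : k) ^ (e j : ℕ) ≠ 0 := prod_ne_zero_iff.2 fun _ _ => pow_ne_zero _ two_ne_zero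
  refine ⟨fun l => (2 ^ (e l : ℕ)) ^ Fintype.card n / ∏ j, 2 ^ (e j : ℕ), fun a b hab => ?_, ?_⟩
  · simp only [div_left_inj' h0, ← pow_mul] at hab
    have h2 : 2 ^ ((e a : ℕ) * Fintype.card n) = 2 ^ ((e b : ℕ) * Fintype.card n) := by
      exact_mod_cast hab
    exact e.injective (Fin.ext (Nat.eq_of_mul_eq_mul_right Fintype.card_pos
      (Nat.pow_right_injective le_rfl h2)))
  · rw [prod_div_distrib, prod_pow, prod_const, card_univ, div_self (pow_ne_zero _ h0)]

theorem exists_diag [CharZero k] [Nonempty n] {L : Type*} [Field L] [IsAlgClosed L] [Algebra k L]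
    {ι : Aff k n →ₐ[k] L} (hι : Function.Injective ι) : ∃ (Q : Matrix n n L) (u : n → L),
      IsUnit Q.det ∧ ∏ l, u l = 1 ∧ (acoord k n).map ι = dg Q fun l => u l ^ Fintype.card n := by
  have : CharZero L := charZero_of_injective_algebraMap (algebraMap k L).injective
  have hN : 0 < Fintype.card n := Fintype.card_pos
  obtain ⟨d, hd, hd1⟩ := exists_point (k := k) (n := n)
  obtain ⟨δ, hδ⟩ := exists_lift (k := k) (diagonal d) (by rw [det_diagonal, hd1])
  have h1 := (sep_iff (acoord k n) (δ : Aff k n →+* k)).2 (by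
    rwa [AlgHom.coe_toRingHom, hδ, charpoly_diagonal, separable_prod_X_sub_C_iff])
  have h2 := (sep_iff (acoord k n) (ι : Aff k n →+* L)).1 fun h0 => h1 (by
    rw [(map_eq_zero_iff (ι : Aff k n →+* L) hι).1 h0, map_zero])
  rw [AlgHom.coe_toRingHom] at h2
  obtain ⟨g, hg, h4⟩ := exists_roots (charpoly_monic _) h2 (charpoly_natDegree_eq_dim _)
  obtain ⟨Q, hQ, h5⟩ := exists_eig hg h4
  have h6 := eq_dg hQ h5
  have h7 : ∏ l, g l = 1 := by
    rw [← det_dg hQ, ← h6, ← AlgHom.mapMatrix_apply, ← AlgHom.map_det, det_acoord, map_one]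
  choose u hu using fun l => IsAlgClosed.exists_pow_nat_eq (g l) hN
  have h8 : (∏ l, u l) ^ Fintype.card n = 1 := by simp only [← prod_pow, hu, h7]
  have h9 : ∏ l, u l ≠ 0 := fun h0 => by simp [h0, hN.ne'] at h8
  obtain ⟨z⟩ := ‹Nonempty n›
  refine ⟨Q, fun l => u l * if l = z then (∏ l, u l)⁻¹ else 1, hQ, ?_, h6.trans ?_⟩
  · rw [prod_mul_distrib, prod_ite_eq', if_pos (mem_univ _), mul_inv_cancel₀ h9]
  · refine congrArg (dg Q) (funext fun l => ?_)
    by_cases hl : l = z <;> simp [hl, mul_pow, hu, h8]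

/-- names of variables -/
abbrev Vr (n : Type) : Type := ((n × n) ⊕ n) ⊕ Fin 2

/-- the matrix part -/
def pm {S : Type*} (g : Vr n → S) : Matrix n n S := of fun i j => g (.inl (.inl (i, j)))

/-- the vector part -/
def uv {S : Type*} (g : Vr n → S) (l : n) : S := g (.inl (.inr l))

/-- the big field -/
abbrev Om (k : Type*) [Field k] (n : Type) : Type _ := FractionRing (MvPolynomial (Vr n) k)

/-- the variables in the big field -/
noncomputable def var (k : Type*) [Field k] (w : Vr n) : Om k n :=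
  algebraMap (MvPolynomial (Vr n) k) _ (.X w)

/-- the eigenvalues -/
noncomputable def tv {F : Type*} [Field F] (g : Vr n → F) (l : n) : F :=
  uv g l ^ Fintype.card n / ∏ j, uv g j

theorem det_pm_ne : (pm (MvPolynomial.X : Vr n → MvPolynomial (Vr n) k)).det ≠ 0 := fun h => by
  have h1 := RingHom.map_det (MvPolynomial.eval (Sum.elim (Sum.elim
    (fun q => (1 : Matrix n n k) q.1 q.2) fun _ => 1) fun _ => 1)) (pm MvPolynomial.X)
  have h2 : (MvPolynomial.eval (Sum.elim (Sum.elim (fun q => (1 : Matrix n n k) q.1 q.2)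
    fun _ => 1) fun _ : Fin 2 => 1)).mapMatrix (pm MvPolynomial.X) = 1 := by
    ext i j
    simp [pm]
  rw [h, h2] at h1
  simp at h1

theorem unit_pm : IsUnit (pm (var k : Vr n → Om k n)).det := by
  have := RingHom.map_det (algebraMap (MvPolynomial (Vr n) k) (Om k n)) (pm MvPolynomial.X)
  exact Ne.isUnit (this ▸ (map_ne_zero_iff _ (IsFractionRing.injective _ _)).2 det_pm_ne :)

theorem exists_emb [CharZero k] [Nonempty n] :
    ∃ i : Fn k n →ₐ[k] Om k n, (gen k n).map i = dg (pm (var k)) (tv (var k)) := by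
  let L := AlgebraicClosure (Fn k n)
  let ι : Aff k n →ₐ[k] L :=
    (IsScalarTower.toAlgHom k (Fn k n) L).comp (IsScalarTower.toAlgHom k (Aff k n) (Fn k n))
  have hι : Function.Injective ι :=
    (algebraMap (Fn k n) L).injective.comp (IsFractionRing.injective (Aff k n) (Fn k n))
  obtain ⟨Q, u, hQ, hu, hX⟩ := exists_diag hι
  set D : MvPolynomial (Vr n) k := (pm .X).det * ∏ l, uv .X l with hD
  have hD0 : D ≠ 0 := mul_ne_zero det_pm_ne (prod_ne_zero_iff.2 fun _ _ => MvPolynomial.X_ne_zero _)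
  let R := Localization.subalgebra (Om k n) (Submonoid.powers D)
    (powers_le_nonZeroDivisors_of_noZeroDivisors hD0)
  let j := algebraMap (MvPolynomial (Vr n) k) R
  have hj : IsUnit (j D) := IsLocalization.Away.algebraMap_isUnit D
  rw [hD, map_mul, IsUnit.mul_iff, RingHom.map_det, map_prod] at hj
  obtain ⟨c, hc⟩ := hj.2.exists_right_inv
  obtain ⟨φ, hφ⟩ := exists_lift (k := k)
      (dg (j.mapMatrix (pm .X)) fun l => j (uv .X l) ^ Fintype.card n * c) (by
    rw [det_dg hj.1, prod_mul_distrib, prod_pow, prod_const, card_univ, ← mul_pow, hc, one_pow])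
  let π : MvPolynomial (Vr n) k →ₐ[k] L :=
    MvPolynomial.aeval (Sum.elim (Sum.elim (fun q => Q q.1 q.2) u) fun _ => 0)
  have h1 : (pm .X).map π = Q := by
    ext a b
    simp [pm, π]
  have h2 : ∀ l, π (uv .X l) = u l := fun l => by simp [uv, π]
  have h3 : IsUnit ((π : MvPolynomial (Vr n) k →+* L) D) := by
    rw [hD, map_mul, RingHom.map_det, map_prod]
    simp only [RingHom.mapMatrix_apply, AlgHom.coe_toRingHom, h1, h2, hu, mul_one, hQ]
  let ψ : R →+* L := IsLocalization.Away.lift D h3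
  have hψ : ∀ p, ψ (j p) = π p := IsLocalization.Away.lift_eq D _
  have h4 : ψ c = 1 := by
    have := congrArg ψ hc
    simp only [map_mul, map_prod, hψ, h2, hu, one_mul, map_one] at this
    exact this
  let ψ' : R →ₐ[k] L := ⟨ψ, fun r => (hψ (.C r)).trans (π.commutes r)⟩
  have h5 : ψ'.comp φ = ι := aff_ext (by
    rw [AlgHom.coe_comp, ← Matrix.map_map, hφ, hX]
    refine (dg_map hj.1 ψ _).trans ?_
    congr 1
    · rw [← h1]
      exact Matrix.ext fun a b => hψ _
    · ext l
      simp [hψ, h2, h4])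
  have h6 : Function.Injective ((R.val.restrictScalars k).comp φ) :=
    Subtype.val_injective.comp (Function.Injective.of_comp (f := ψ')
      (show Function.Injective (ψ'.comp φ) from h5 ▸ hι))
  refine ⟨IsFractionRing.liftAlgHom h6, ?_⟩
  have h7 : (gen k n).map (IsFractionRing.liftAlgHom (K := Fn k n) h6) =
      ((acoord k n).map φ).map R.val := Matrix.ext fun a b => by simp [gen]
  rw [h7, hφ]
  refine (dg_map hj.1 R.val.toRingHom _).trans ?_
  congr 1
  ext l
  have h8 : (c : Om k n) = (∏ j, uv (var k) j)⁻¹ := by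
    refine eq_inv_of_mul_eq_one_right ?_
    have := congrArg R.val hc
    rwa [map_mul, map_prod, map_one] at this
  rw [tv, div_eq_mul_inv, ← h8]
  rfl

theorem fn_ext [Nonempty n] {F : Type*} [Field F] [Algebra k F] {f g : Fn k n →ₐ[k] F}
    (h : (gen k n).map f = (gen k n).map g) : f = g :=
  IsLocalization.algHom_ext (nonZeroDivisors (Aff k n)) (aff_ext h)

end Pool.Agent.Work.MP_274868_ag.Cay
end

-- merged part: Pool.Agent.Work.MP_274868_ag.Cay.Sub
section
/-! Substitutions in the big field; an equivariant matrix is diagonal in the generic eigenbasis. -/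

namespace Pool.Agent.Work.MP_274868_ag.Cay

open Matrix Finset

variable {n : Type} {k : Type*} [Field k]

theorem var_ind : AlgebraicIndependent k (var k : Vr n → Om k n) :=
  (MvPolynomial.algebraicIndependent_X _ k).map' (f := IsScalarTower.toAlgHom k _ (Om k n))
    (IsFractionRing.injective _ _)

theorem var_ne (w : Vr n) : var k w ≠ 0 := var_ind.ne_zero w

theorem var_gen {L : IntermediateField k (Om k n)} (h : ∀ w, var k w ∈ L) : L = ⊤ := by
  have h1 : ∀ P : MvPolynomial (Vr n) k, algebraMap _ (Om k n) P ∈ L := fun P => by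
    induction P using MvPolynomial.induction_on with
    | C c => exact L.algebraMap_mem c
    | add p q h1 h2 => simpa using add_mem h1 h2
    | mul_X p w h1 => exact (map_mul (algebraMap _ (Om k n)) p _).symm ▸ mul_mem h1 (h w)
  refine top_le_iff.1 fun e _ => ?_
  obtain ⟨p, q, _, rfl⟩ := IsFractionRing.div_surjective (A := MvPolynomial (Vr n) k) e
  exact div_mem (h1 p) (h1 q)

theorem om_ext {F : Type*} [Field F] [Algebra k F] {f g : Om k n →ₐ[k] F}
    (h : ∀ w, f (var k w) = g (var k w)) : f = g :=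
  IsLocalization.algHom_ext (nonZeroDivisors (MvPolynomial (Vr n) k)) (MvPolynomial.algHom_ext h)

theorem hom_alg {f : Om k n →ₐ[k] Om k n} {z : Vr n → Om k n} (h : ∀ w, f (var k w) = z w)
    (P : MvPolynomial (Vr n) k) : f (algebraMap _ (Om k n) P) = MvPolynomial.aeval z P :=
  DFunLike.congr_fun (MvPolynomial.algHom_ext (f := f.comp (IsScalarTower.toAlgHom k _ (Om k n)))
    (g := MvPolynomial.aeval z) fun w => (h w).trans (MvPolynomial.aeval_X z w).symm) P

variable [Fintype n]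

theorem indep_of_alg {z : Vr n → Om k n}
    (h : ∀ w : Vr n, IsAlgebraic (IntermediateField.adjoin k (Set.range z)) (var k w)) :
    AlgebraicIndependent k z := by
  have h1 := var_gen (L := (algebraicClosure (IntermediateField.adjoin k (Set.range z))
    (Om k n)).restrictScalars k) fun w => mem_algebraicClosure_iff.2 (h w)
  have h2 : Algebra.IsAlgebraic (Algebra.adjoin k (Set.range z)) (Om k n) :=
    IntermediateField.isAlgebraic_adjoin_iff_top.1
      ⟨fun e => mem_algebraicClosure_iff.1 (h1.ge IntermediateField.mem_top)⟩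
  exact (Algebra.IsAlgebraic.isTranscendenceBasis_of_lift_le_trdeg_of_finite k z
    var_ind.lift_cardinalMk_le_trdeg).1

theorem exists_sub {z : Vr n → Om k n}
    (h : ∀ w, var k w ∈ IntermediateField.adjoin k (Set.range z)) :
    ∃ f : Om k n →ₐ[k] Om k n, ∀ w, f (var k w) = z w := by
  have h1 : Function.Injective (MvPolynomial.aeval z : MvPolynomial (Vr n) k →ₐ[k] Om k n) :=
    indep_of_alg fun w => isAlgebraic_algebraMap (⟨_, h w⟩ : IntermediateField.adjoin k _)
  exact ⟨IsFractionRing.liftAlgHom h1, fun w => by simp [var]⟩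

theorem mul_mem_mat {F : Type*} [Field F] [Algebra k F] {L : IntermediateField k F}
    {A B : Matrix n n F} (hA : ∀ i j, A i j ∈ L) (hB : ∀ i j, B i j ∈ L) (i j : n) :
    (A * B) i j ∈ L := sum_mem fun l _ => mul_mem (hA i l) (hB l j)

variable [DecidableEq n]

theorem inv_mem_mat {F : Type*} [Field F] [Algebra k F] {L : IntermediateField k F}
    {A : Matrix n n F} (h : IsUnit A.det) (hA : ∀ i j, A i j ∈ L) (i j : n) : A⁻¹ i j ∈ L := by
  let B : Matrix n n L := of fun i j => ⟨A i j, hA i j⟩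
  have h1 : B.map L.val.toRingHom = A := rfl
  have h2 : IsUnit B.det := Ne.isUnit fun e => h.ne_zero (by
    rw [← h1, ← RingHom.mapMatrix_apply, ← RingHom.map_det, e, map_zero])
  rw [← h1, ← inv_map h2]
  exact (B⁻¹ i j).2

/-- multiply the matrix part on both sides -/
def act {S : Type*} [CommRing S] [Algebra k S] (H B : Matrix n n k) (g : Vr n → S) : Vr n → S :=
  Sum.elim (Sum.elim (fun q => (H.map (algebraMap k S) * pm g * B.map (algebraMap k S)) q.1 q.2)
    (uv g)) fun i => g (.inr i)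

omit [DecidableEq n] in
theorem pm_act {S : Type*} [CommRing S] [Algebra k S] (H B : Matrix n n k) (g : Vr n → S) :
    pm (act H B g) = H.map (algebraMap k S) * pm g * B.map (algebraMap k S) := rfl

omit [DecidableEq n] in
theorem map_act {S T : Type*} [CommRing S] [CommRing T] [Algebra k S] [Algebra k T]
    (f : S →ₐ[k] T) (H B : Matrix n n k) (g : Vr n → S) : f ∘ act H B g = act H B (f ∘ g) := by
  funext w
  rcases w with (⟨i, j⟩ | l) | l
  · simp [act, pm, Matrix.mul_apply]
  · rfl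
  · rfl

omit [DecidableEq n] in
theorem aeval_act {T : Type*} [CommRing T] [Algebra k T] (f : MvPolynomial (Vr n) k →ₐ[k] T)
    {z : Vr n → T} (hz : ∀ w, f (.X w) = z w) (H B : Matrix n n k) (r : MvPolynomial (Vr n) k) :
    f (MvPolynomial.aeval (act H B MvPolynomial.X) r) = MvPolynomial.aeval (act H B z) r := by
  rw [MvPolynomial.comp_aeval_apply, ← funext hz]
  exact congrArg (fun z => MvPolynomial.aeval z r) (map_act f H B MvPolynomial.X)

theorem unit_map {S : Type*} [CommRing S] [Algebra k S] {H : Matrix n n k} (hH : IsUnit H.det) :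
    IsUnit (H.map (algebraMap k S)).det := by
  rw [← RingHom.mapMatrix_apply, ← RingHom.map_det]
  exact hH.map _

theorem exists_act {H B : Matrix n n k} (hH : IsUnit H.det) (hB : IsUnit B.det) :
    ∃ f : Om k n →ₐ[k] Om k n, ∀ w, f (var k w) = act H B (var k) w := by
  have h1 := fun w => IntermediateField.subset_adjoin k _ (Set.mem_range_self
    (f := act H B (var k)) w)
  refine exists_sub ?_
  rintro ((⟨i, j⟩ | l) | l)
  · have h2 : pm (var k) = H⁻¹.map (algebraMap k _) * pm (act H B (var k)) *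
        B⁻¹.map (algebraMap k _) := by
      rw [inv_map hH, inv_map hB, pm_act, ← Matrix.mul_assoc, nonsing_inv_mul_cancel_left _ _ (unit_map hH),
        mul_nonsing_inv_cancel_right _ _ (unit_map hB)]
    show pm (var k) i j ∈ _
    rw [h2]
    exact mul_mem_mat (mul_mem_mat (fun _ _ => IntermediateField.algebraMap_mem _ _)
      fun a b => h1 (.inl (.inl (a, b)))) (fun _ _ => IntermediateField.algebraMap_mem _ _) i j
  · exact h1 (.inl (.inr l))
  · exact h1 (.inr l)

theorem fix_right [Infinite k] {x : Om k n} (h : ∀ (H : SpecialLinearGroup n k)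
    (f : Om k n →ₐ[k] Om k n), (∀ w, f (var k w) = act H.1 1 (var k) w) → f x = x)
    {B : Matrix n n k} (hB : B.det = 1) {f : Om k n →ₐ[k] Om k n}
    (hf : ∀ w, f (var k w) = act 1 B (var k) w) : f x = x := by
  obtain ⟨p, q, hq, rfl⟩ := IsFractionRing.div_surjective (A := MvPolynomial (Vr n) k) x
  let j := IsScalarTower.toAlgHom k (MvPolynomial (Vr n) k) (Om k n)
  have hj : Function.Injective j := IsFractionRing.injective _ _
  have hq0 : j q ≠ 0 := (map_ne_zero_iff _ hj).2 (nonZeroDivisors.ne_zero hq)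
  have h1 : ∀ (H B : Matrix n n k) (g : Om k n →ₐ[k] Om k n),
      (∀ w, g (var k w) = act H B (var k) w) → (g (j p / j q) = j p / j q ↔
        MvPolynomial.aeval (act H B .X) p * q = p * MvPolynomial.aeval (act H B .X) q) :=
    fun H B g hg => by
      have h2 : ∀ r, g (j r) = j (MvPolynomial.aeval (act H B .X) r) := fun r =>
        (hom_alg hg r).trans (aeval_act j (fun _ => rfl) H B r).symm
      rw [map_div₀, div_eq_div_iff ((_root_.map_ne_zero g).2 hq0) hq0, h2, h2, ← map_mul, ← map_mul,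
        hj.eq_iff]
  have h3 := fun z : Vr n → k =>
    aeval_act (k := k) (MvPolynomial.aeval z) (MvPolynomial.aeval_X z)
  refine (h1 1 B f hf).2 (mul_left_cancel₀ det_pm_ne (MvPolynomial.funext fun z => ?_))
  have h4 : (MvPolynomial.aeval z : MvPolynomial (Vr n) k →ₐ[k] k) (pm .X).det = (pm z).det := by
    rw [AlgHom.map_det]
    congr 1
    exact Matrix.ext fun a b => MvPolynomial.aeval_X z _
  rw [← MvPolynomial.coe_aeval_eq_eval]
  simp only [AlgHom.coe_toRingHom, map_mul, h3, h4]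
  by_cases h0 : (pm z).det = 0
  · simp [h0]
  let H : SpecialLinearGroup n k := ⟨pm z * B * (pm z)⁻¹, by
    rw [det_mul_comm, nonsing_inv_mul_cancel_left _ _ (Ne.isUnit h0), hB]⟩
  obtain ⟨g, hg⟩ := exists_act (H := H.1) (B := 1) (by simp) (by simp)
  have h5 := congrArg (MvPolynomial.aeval z) ((h1 _ _ g hg).1 (h H g hg))
  have h6 : act H.1 1 z = act 1 B z := by
    unfold act
    simp [H, nonsing_inv_mul_cancel_right _ _ (Ne.isUnit h0)]
  simp only [map_mul, h3, h6] at h5
  rw [h5]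

theorem map_gen {f : Om k n →ₐ[k] Om k n} {z : Vr n → Om k n} (h : ∀ w, f (var k w) = z w) :
    (pm (var k)).map f = pm z ∧ (dg (pm (var k)) (tv (var k))).map f = dg (pm z) (tv z) := by
  have h1 : (pm (var k)).map f = pm z := Matrix.ext fun a b => h _
  refine ⟨h1, (dg_map unit_pm (f : Om k n →+* Om k n) _).trans ?_⟩
  rw [AlgHom.coe_toRingHom, h1]
  refine congrArg _ (funext fun l => ?_)
  simp [tv, uv, h]

theorem map_conj {S T : Type*} [CommRing S] [CommRing T] [Algebra k S] [Algebra k T]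
    (f : S →ₐ[k] T) (h : SpecialLinearGroup n k) (Y : Matrix n n S) :
    (conj h Y).map f = conj h (Y.map f) := by
  ext i j
  simp [conj, Matrix.mul_apply]

theorem conj_mul {S : Type*} [CommRing S] [Algebra k S] (h : SpecialLinearGroup n k)
    (Y : Matrix n n S) : conj h Y * h.1.map (algebraMap k S) = h.1.map (algebraMap k S) * Y := by
  rw [conj, Matrix.mul_assoc, ← Matrix.map_mul,
    show (h⁻¹).1 * h.1 = 1 from congrArg Subtype.val (inv_mul_cancel h)]
  simp

theorem exists_eigenvalues [CharZero k] [Nonempty n] {i : Fn k n →ₐ[k] Om k n}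
    (hi : (gen k n).map i = dg (pm (var k)) (tv (var k))) {Y : Matrix n n (Fn k n)}
    (hY : IsEquivariant Y) :
    ∃ y : n → Om k n, Y.map i * pm (var k) = pm (var k) * diagonal y ∧ ∑ l, y l = 0 := by
  set P := pm (var k : Vr n → Om k n) with hP
  have uP : IsUnit P.det := unit_pm
  obtain ⟨Z, hZ⟩ : ∃ Z, Z = P⁻¹ * (Y.map i * P) := ⟨_, rfl⟩
  have h0 : Y.map i * P = P * Z := by rw [hZ, mul_nonsing_inv_cancel_left _ _ uP]
  have hm : ∀ f : Om k n →ₐ[k] Om k n, (Y.map i).map f * P.map f = P.map f * Z.map f := fun f => by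
    have := congrArg (fun A => A.map (f : Om k n →+* Om k n)) h0
    simpa only [Matrix.map_mul, AlgHom.coe_toRingHom] using this
  have h1 : ∀ (H : SpecialLinearGroup n k) (f : Om k n →ₐ[k] Om k n),
      (∀ w, f (var k w) = act H.1 1 (var k) w) → Z.map f = Z := fun H f hf => by
    obtain ⟨σ, s1, s2⟩ := hY.2 H
    obtain ⟨m1, m2⟩ := map_gen hf
    have e1 : pm (act H.1 1 (var k)) = H.1.map (algebraMap k _) * P := by
      simp [hP, pm_act]
    have uH : IsUnit (H.1.map (algebraMap k (Om k n)) * P).det := by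
      rw [det_mul]
      exact (unit_map (by simp)).mul uP
    have e2 : f.comp i = i.comp σ := fn_ext (by
      rw [AlgHom.coe_comp, AlgHom.coe_comp, ← Matrix.map_map, ← Matrix.map_map, hi, m2, e1]
      refine (eq_dg uH ?_).symm
      rw [s1, map_conj, hi, ← Matrix.mul_assoc, conj_mul, Matrix.mul_assoc,
        dg_mul uP, Matrix.mul_assoc]
      rfl)
    have e3 : (Y.map i).map f = conj H (Y.map i) := by
      rw [← map_conj, ← s2, Matrix.map_map, Matrix.map_map, ← AlgHom.coe_comp, e2]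
      rfl
    have := hm f
    rw [e3, m1, e1, ← Matrix.mul_assoc, conj_mul, Matrix.mul_assoc, h0, ← Matrix.mul_assoc] at this
    exact (((isUnit_iff_isUnit_det _).2 uH).mul_left_cancel this).symm
  have h2 : ∀ a b, a ≠ b → Z a b = 0 := fun a b hab => by
    let s : n → k := fun l => (if l = a then 2 else 1) * if l = b then 2⁻¹ else 1
    have hs : (diagonal s).det = 1 := by
      rw [det_diagonal, prod_mul_distrib]
      simp
    obtain ⟨f, hf⟩ := exists_act (H := 1) (B := diagonal s) (by simp) (by simp [hs])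
    obtain ⟨m1, m2⟩ := map_gen hf
    have e1 : pm (act 1 (diagonal s) (var k)) = P * diagonal (algebraMap k _ ∘ s) := by
      simp [hP, pm_act, Function.comp_def]
    have uS : IsUnit (P * diagonal (algebraMap k (Om k n) ∘ s)).det := by
      rw [← e1, ← m1, ← AlgHom.mapMatrix_apply, ← AlgHom.map_det]
      exact uP.map _
    have e2 : f.comp i = i := fn_ext (by
      rw [AlgHom.coe_comp, ← Matrix.map_map, hi, m2, e1]
      refine (eq_dg uS ?_).symm
      rw [← Matrix.mul_assoc, dg_mul uP, Matrix.mul_assoc, Matrix.mul_assoc, diagonal_mul_diagonal,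
        diagonal_mul_diagonal]
      simp only [mul_comm]
      rfl)
    have e3 : Z.map f = Z := Matrix.ext fun c d =>
      fix_right (fun H g hg => congrFun (congrFun (h1 H g hg) c) d) hs hf
    have := hm f
    rw [Matrix.map_map, ← AlgHom.coe_comp, e2, m1, e1, e3, ← Matrix.mul_assoc, h0,
      Matrix.mul_assoc P, Matrix.mul_assoc P] at this
    have e4 := congrFun (congrFun (((isUnit_iff_isUnit_det _).2 uP).mul_left_cancel this) a) b
    simp only [mul_diagonal, diagonal_mul, Function.comp, s, hab, hab.symm, if_true, if_false,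
      mul_one, one_mul] at e4
    have e5 : algebraMap k (Om k n) (2⁻¹ - 2) ≠ 0 := (_root_.map_ne_zero _).2 (by norm_num)
    refine (mul_eq_zero.1 ?_).resolve_right e5
    rw [map_sub, mul_sub, e4, mul_comm, sub_self]
  refine ⟨fun l => Z l l, h0.trans (congrArg _ (Matrix.ext fun a b => ?_)), ?_⟩
  · by_cases hab : a = b
    · simp [hab]
    · rw [h2 a b hab, diagonal_apply_ne _ hab]
  · show Z.trace = 0
    rw [hZ, trace_mul_comm, mul_nonsing_inv_cancel_right _ _ uP]
    exact (AddMonoidHom.map_trace i Y).symm.trans (by rw [hY.1, map_zero])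

end Pool.Agent.Work.MP_274868_ag.Cay
end

-- merged part: Pool.Agent.Work.MP_274868_ag.Cay.Val
section
/-! Valuations on a field with an endomorphism of prime order. -/

namespace Pool.Agent.Work.MP_274868_ag.Cay

open Finset Polynomial

variable {k F Γ : Type*} [Field k] [Field F] [Algebra k F] [LinearOrderedCommGroupWithZero Γ]

/-- eigenvectors of value one have eigenvalue one -/
def Good (v : Valuation F Γ) (φ : F →ₐ[k] F) : Prop :=
  ∀ (x : F) (ω : k), φ x = ω • x → v x = 1 → ω = 1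

theorem val_smul {v : Valuation F Γ} (hv : v.IsTrivialOn k) {ω : k} (h : ω ≠ 0) (x : F) :
    v (ω • x) = v x := by
  rw [Algebra.smul_def, map_mul, hv.eq_one ω h, one_mul]

theorem val_smul_le {v : Valuation F Γ} (hv : v.IsTrivialOn k) (ω : k) (x : F) :
    v (ω • x) ≤ v x := by
  by_cases h : ω = 0
  · simp [h]
  · exact (val_smul hv h x).le

theorem val_alg_le {v : Valuation F Γ} (hv : v.IsTrivialOn k) (r : k) :
    v (algebraMap k F r) ≤ 1 := by
  have := val_smul_le hv r (1 : F)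
  rwa [map_one, ← Algebra.algebraMap_eq_smul_one] at this

theorem alg_eq_of_lt {v : Valuation F Γ} (hv : v.IsTrivialOn k) {x : F} {r s : k}
    (h1 : v (x - algebraMap k F r) < 1) (h2 : v (x - algebraMap k F s) < 1) : r = s := by
  by_contra h
  have h3 := v.map_sub_lt h2 h1
  rw [sub_sub_sub_cancel_left, ← map_sub, hv.eq_one _ (sub_ne_zero.2 h)] at h3
  exact lt_irrefl _ h3

theorem pow_succ_apply (φ : F →ₐ[k] F) (j : ℕ) (x : F) : (φ ^ (j + 1)) x = φ ((φ ^ j) x) := by
  rw [pow_succ']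
  rfl

theorem pow_eig {φ : F →ₐ[k] F} {x : F} {ω : k} (h : φ x = ω • x) (j : ℕ) :
    (φ ^ j) x = ω ^ j • x := by
  induction j with
  | zero => simp
  | succ j ih => rw [pow_succ_apply, ih, map_smul, h, smul_smul, pow_succ]

theorem eig_pow_eq_one {p : ℕ} {φ : F →ₐ[k] F} (hφ : φ ^ p = 1) {x : F} {ω : k} (h : φ x = ω • x)
    (hx : x ≠ 0) : ω ^ p = 1 := by
  have h1 := pow_eig h p
  rw [hφ, AlgHom.one_apply] at h1
  have h2 : (ω ^ p - 1) • x = 0 := by rw [sub_smul, ← h1, one_smul, sub_self]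
  exact sub_eq_zero.1 ((smul_eq_zero.1 h2).resolve_right hx)

theorem eig_div {φ : F →ₐ[k] F} {x y : F} {a b : k} (hx : φ x = a • x) (hy : φ y = b • y) :
    φ (x / y) = (a / b) • (x / y) := by
  rw [map_div₀, hx, hy, Algebra.smul_def, Algebra.smul_def, Algebra.smul_def, map_div₀,
    mul_div_mul_comm]

theorem eig_zpow {φ : F →ₐ[k] F} {x : F} {a : k} (hx : φ x = a • x) (l : ℤ) :
    φ (x ^ l) = a ^ l • x ^ l := by
  rw [map_zpow₀, hx, Algebra.smul_def, Algebra.smul_def, map_zpow₀, mul_zpow]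

theorem Good.pair {v : Valuation F Γ} {φ : F →ₐ[k] F} (h : Good v φ) {x y : F} {a b : k}
    (hx : φ x = a • x) (hy : φ y = b • y) (h0 : y ≠ 0) (hxy : v x = v y) : a = b := by
  have h1 := h _ _ (eig_div hx hy) (by rw [map_div₀, hxy, div_self ((map_ne_zero v).2 h0)])
  by_cases hb : b = 0
  · simp [hb] at h1
  · exact (div_eq_one_iff_eq hb).1 h1

theorem decomp [CharZero k] {p : ℕ} (hp : 0 < p) {ε : k} (hε : IsPrimitiveRoot ε p)
    {φ : F →ₐ[k] F} (hφ : φ ^ p = 1) (x : F) :
    ∃ z : ℕ → F, ∑ i ∈ range p, z i = x ∧ (∀ i, φ (z i) = ε ^ i • z i) ∧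
      ∀ W : Submodule k F, (∀ y ∈ W, φ y ∈ W) → x ∈ W → ∀ i, z i ∈ W := by
  have hp0 : (p : k) ≠ 0 := Nat.cast_ne_zero.2 hp.ne'
  have hε0 : ε ≠ 0 := hε.ne_zero hp.ne'
  refine ⟨fun i => (p : k)⁻¹ • ∑ j ∈ range p, (ε⁻¹ ^ j) ^ i • (φ ^ j) x, ?_, fun i => ?_,
    fun W hW hx i => ?_⟩
  · rw [← smul_sum, sum_comm, sum_eq_single 0]
    · simp [← Nat.cast_smul_eq_nsmul k, smul_smul, hp0]
    · intro j hj h0
      rw [← sum_smul, geom_sum_eq (hε.inv.pow_ne_one_of_pos_of_lt h0 (mem_range.1 hj)),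
        pow_right_comm, hε.inv.pow_eq_one, one_pow, sub_self, zero_div, zero_smul]
    · intro h
      exact absurd (mem_range.2 hp) h
  · set g : ℕ → F := fun j => (ε⁻¹ ^ j) ^ i • (φ ^ j) x with hg
    have h1 : ∀ j, φ (g j) = ε ^ i • g (j + 1) := fun j => by
      simp only [hg, map_smul, pow_succ_apply, smul_smul]
      congr 1
      rw [pow_succ, mul_pow]
      rw [mul_left_comm, ← mul_pow ε, mul_inv_cancel₀ hε0, one_pow, mul_one]
    have h2 : g p = g 0 := by
      simp only [hg, hφ]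
      simp [hε.pow_eq_one]
    have h3 := (sum_range_succ' g p).symm.trans (sum_range_succ g p)
    rw [h2, add_left_inj] at h3
    rw [map_smul, map_sum, sum_congr rfl fun j _ => h1 j, ← smul_sum, h3, smul_comm]
  · have h1 : ∀ j, (φ ^ j) x ∈ W := fun j => by
      induction j with
      | zero => exact hx
      | succ j ih => exact pow_succ_apply φ j x ▸ hW _ ih
    exact W.smul_mem _ (W.sum_mem fun j _ => W.smul_mem _ (h1 j))

theorem lead [CharZero k] {p : ℕ} (hp : p.Prime) {ε : k} (hε : IsPrimitiveRoot ε p)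
    {φ : F →ₐ[k] F} (hφ : φ ^ p = 1) {v : Valuation F Γ} (hv : v.IsTrivialOn k) (h : Good v φ)
    {x : F} (hx : x ≠ 0) : ∃ (x' : F) (ω : k), φ x' = ω • x' ∧ ω ≠ 0 ∧ v (x - x') < v x' ∧
      v (φ x - ω • x') < v x' ∧
      ∀ W : Submodule k F, (∀ y ∈ W, φ y ∈ W) → x ∈ W → x' ∈ W := by
  obtain ⟨z, h1, h2, h3⟩ := decomp hp.pos hε hφ x
  obtain ⟨i, hi, hm⟩ := exists_max_image (range p) (fun i => v (z i)) ⟨0, mem_range.2 hp.pos⟩
  have h0 : z i ≠ 0 := fun h0 => hx (by
    rw [← h1]
    refine sum_eq_zero fun j hj => ?_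
    simpa [h0] using hm j hj)
  have hlt : ∀ j ∈ (range p).erase i, v (z j) < v (z i) := fun j hj =>
    (hm j (mem_of_mem_erase hj)).lt_of_ne fun e => ne_of_mem_erase hj
      (hε.pow_inj (mem_range.1 (mem_of_mem_erase hj)) (mem_range.1 hi) (h.pair (h2 j) (h2 i) h0 e))
  have hv0 : v (z i) ≠ 0 := (map_ne_zero v).2 h0
  refine ⟨z i, ε ^ i, h2 i, pow_ne_zero _ (hε.ne_zero hp.ne_zero), ?_, ?_,
    fun W hW hx => h3 W hW hx i⟩
  · rw [← h1, ← add_sum_erase _ _ hi, add_sub_cancel_left]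
    exact v.map_sum_lt hv0 hlt
  · rw [← h1, map_sum, ← add_sum_erase _ _ hi, h2, add_sub_cancel_left]
    exact v.map_sum_lt hv0 fun j hj => by
      rw [h2]
      exact (val_smul_le hv _ _).trans_lt (hlt j hj)

theorem val_of_sub_lt {v : Valuation F Γ} {x y : F} (h : v (x - y) < v y) : v x = v y := by
  simpa using v.map_add_eq_of_lt_right h

section
variable [CharZero k] {p : ℕ} (hp : p.Prime) {ε : k} (hε : IsPrimitiveRoot ε p)
  {φ : F →ₐ[k] F} (hφ : φ ^ p = 1) {v : Valuation F Γ} (hv : v.IsTrivialOn k) (h : Good v φ)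
include hp hε hφ hv h

theorem good_inv (x : F) : v (φ x) = v x := by
  by_cases hx : x = 0
  · simp [hx]
  obtain ⟨x', ω, -, h0, h1, h2, -⟩ := lead hp hε hφ hv h hx
  rw [← val_smul hv h0 x'] at h2
  rw [val_of_sub_lt h1, val_of_sub_lt h2, val_smul hv h0]

theorem good_fix {x : F} (hx : v x = 1) : v (φ x - x) < 1 := by
  obtain ⟨x', ω, h3, -, h1, h2, -⟩ := lead hp hε hφ hv h (x := x) (fun e => by simp [e] at hx)
  have h4 : v x' = 1 := (val_of_sub_lt h1).symm.trans hx
  rw [h _ _ h3 h4, one_smul] at h2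
  have := v.map_sub_lt h2 h1
  rwa [sub_sub_sub_cancel_right, h4] at this

end

theorem cong_mul {v : Valuation F Γ} {a b c d : F} (h1 : v (a - b) < 1) (h2 : v (c - d) < 1)
    (ha : v a ≤ 1) (hd : v d ≤ 1) : v (a * c - b * d) < 1 := by
  rw [show a * c - b * d = a * (c - d) + (a - b) * d by ring]
  refine v.map_add_lt ?_ ?_ <;> rw [map_mul]
  · exact (mul_le_of_le_one_left' ha).trans_lt h2
  · exact (mul_le_of_le_one_right' hd).trans_lt h1

theorem cong_trans {v : Valuation F Γ} {a b c : F} (h1 : v (a - b) < 1) (h2 : v (b - c) < 1) :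
    v (a - c) < 1 := by
  simpa using v.map_add_lt h1 h2

theorem cong_le {v : Valuation F Γ} {a b : F} (h1 : v (a - b) < 1) (h2 : v b ≤ 1) : v a ≤ 1 := by
  simpa using v.map_add_le h1.le h2

theorem cong_prod {v : Valuation F Γ} {ι : Type*} (s : Finset ι) {f g : ι → F}
    (h : ∀ i ∈ s, v (f i - g i) < 1) (hg : ∀ i ∈ s, v (g i) ≤ 1) :
    v (∏ i ∈ s, f i - ∏ i ∈ s, g i) < 1 := by
  induction s using Finset.cons_induction with
  | empty => simp
  | cons a s ha ih =>
    rw [prod_cons, prod_cons]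
    refine cong_mul (h a (mem_cons_self _ _)) (ih (fun i hi => h i (mem_cons_of_mem hi))
      fun i hi => hg i (mem_cons_of_mem hi))
      (cong_le (h a (mem_cons_self _ _)) (hg a (mem_cons_self _ _))) ?_
    rw [map_prod]
    exact prod_le_one' fun i hi => hg i (mem_cons_of_mem hi)

theorem exists_lt_of_prod {v : Valuation F Γ} {ι : Type*} {s : Finset ι} {f : ι → F}
    (h : v (∏ i ∈ s, f i) < 1) : ∃ i ∈ s, v (f i) < 1 := by
  by_contra! hc
  rw [map_prod] at h
  exact absurd (one_le_prod' hc) h.not_ge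

section
variable [CharZero k] {p : ℕ} (hp : p.Prime) {ε : k} (hε : IsPrimitiveRoot ε p)
  {φ : F →ₐ[k] F} (hφ : φ ^ p = 1) {v : Valuation F Γ} (hv : v.IsTrivialOn k) (h : Good v φ)
include hp hε hφ hv h

theorem good_inv_pow (x : F) (j : ℕ) : v ((φ ^ j) x) = v x := by
  induction j with
  | zero => rfl
  | succ j ih => rw [pow_succ_apply, good_inv hp hε hφ hv h, ih]

theorem unit_of_norm {θ : F} (hθ : ∏ j ∈ range p, (φ ^ j) θ = 1) : v θ = 1 := by
  have := congrArg v hθ
  rw [map_prod, prod_congr rfl fun j _ => good_inv_pow hp hε hφ hv h θ j, prod_const, card_range,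
    map_one] at this
  exact (pow_eq_one_iff_of_nonneg zero_le hp.ne_zero).1 this

theorem root_of_norm {θ : F} (hθ : ∏ j ∈ range p, (φ ^ j) θ = 1) :
    ∃ i < p, v (θ - algebraMap k F (ε ^ i)) < 1 := by
  have h1 := unit_of_norm hp hε hφ hv h hθ
  have h2 : ∀ j, v ((φ ^ j) θ - θ) < 1 := fun j => by
    induction j with
    | zero => simp
    | succ j ih =>
      rw [pow_succ_apply]
      exact cong_trans (good_fix hp hε hφ hv h (by rw [good_inv_pow hp hε hφ hv h, h1])) ih
  have h3 := cong_prod (range p) (fun j _ => h2 j) fun _ _ => h1.le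
  rw [hθ, prod_const, card_range, v.map_sub_swap] at h3
  have h4 := congrArg (aeval θ) (X_pow_sub_C_eq_prod hε hp.pos (one_pow p))
  simp only [map_sub, map_pow, aeval_X, map_one, map_prod, aeval_C, mul_one] at h4
  rw [h4] at h3
  obtain ⟨i, hi, h5⟩ := exists_lt_of_prod h3
  exact ⟨i, mem_range.1 hi, by simpa using h5⟩

end

theorem two_terms {v : Valuation F Γ} {s : Finset ℕ} {f : ℕ → F} (h : ∑ i ∈ s, f i = 0) {a : ℕ}
    (ha : a ∈ s) (h0 : f a ≠ 0) : ∃ i ∈ s, ∃ j ∈ s, i ≠ j ∧ f j ≠ 0 ∧ v (f i) = v (f j) := by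
  by_contra! hc
  obtain ⟨j, hj, hm⟩ := exists_max_image s (fun i => v (f i)) ⟨a, ha⟩
  have h1 : f j ≠ 0 := fun e => h0 (by simpa [e] using hm a ha)
  have := v.map_sum_eq_of_lt hj (f := f) fun i hi => (hm i (mem_sdiff.1 hi).1).lt_of_ne
    (hc i (mem_sdiff.1 hi).1 j hj (by simpa using (mem_sdiff.1 hi).2) h1)
  rw [h, map_zero] at this
  exact h1 ((map_eq_zero v).1 this.symm)

theorem good_up {E : Type*} [Field E] [Algebra k E] [Algebra E F] [IsScalarTower k E F]
    [FiniteDimensional E F] {p : ℕ} (hp : p.Prime) (hd : Module.finrank E F < p) {ψ : E →ₐ[k] E}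
    {φ : F →ₐ[k] F} (hφ : φ ^ p = 1) (hc : ∀ x, φ (algebraMap E F x) = algebraMap E F (ψ x))
    {v : Valuation F Γ} (h : Good (v.comap (algebraMap E F)) ψ) : Good v φ := by
  intro x ω hx h1
  by_contra hω
  have hx0 : x ≠ 0 := fun e => by simp [e] at h1
  have hωp := eig_pow_eq_one hφ hx hx0
  have hprim : IsPrimitiveRoot ω p := by
    have h2 := IsPrimitiveRoot.orderOf ω
    have := Fact.mk hp
    rwa [orderOf_eq_prime hωp hω] at h2
  have hω0 : ω ≠ 0 := hprim.ne_zero hp.ne_zero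
  have hI : IsIntegral E x := Algebra.IsIntegral.isIntegral x
  set m := minpoly E x with hm
  have hdeg : m.natDegree < p := (minpoly.natDegree_le x).trans_lt hd
  have hmon : m.Monic := minpoly.monic hI
  set r := (m.map (ψ : E →+* E)).comp (C (algebraMap k E ω) * X) -
    C (algebraMap k E ω ^ m.natDegree) * m with hr
  have hco : ∀ i, r.coeff i = ψ (m.coeff i) * algebraMap k E ω ^ i -
      algebraMap k E ω ^ m.natDegree * m.coeff i := fun i => by
    rw [hr, coeff_sub, comp_C_mul_X_coeff, coeff_map, coeff_C_mul]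
    rfl
  have hr0 : r = 0 := by
    by_contra h0
    have h2 : aeval x r = 0 := by
      have h3 : aeval (φ x) (m.map (ψ : E →+* E)) = φ (aeval x m) := by
        rw [aeval_def, aeval_def, eval₂_map]
        refine Eq.trans ?_ (hom_eval₂ m _ (φ : F →+* F) x).symm
        congr 1
        ext y
        exact (hc y).symm
      rw [hr, map_sub, aeval_comp, map_mul, map_mul, minpoly.aeval, aeval_C, aeval_X,
        ← IsScalarTower.algebraMap_apply, ← Algebra.smul_def, ← hx, h3, minpoly.aeval]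
      simp
    have h4 : r.degree < m.natDegree := (degree_lt_iff_coeff_zero _ _).2 fun i hi => by
      rw [hco]
      rcases hi.eq_or_lt with e | e
      · rw [← e, hmon.coeff_natDegree]
        simp
      · simp [coeff_eq_zero_of_natDegree_lt e]
    have h5 := minpoly.degree_le_of_ne_zero E x h0 h2
    rw [← hm, degree_eq_natDegree hmon.ne_zero] at h5
    exact absurd h4 h5.not_gt
  have heig : ∀ i, ψ (m.coeff i) = (ω ^ m.natDegree / ω ^ i) • m.coeff i := fun i => by
    have h2 := hco i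
    rw [hr0, coeff_zero, eq_comm, sub_eq_zero] at h2
    have h3 : algebraMap k E ω ^ i ≠ 0 := pow_ne_zero _ ((_root_.map_ne_zero _).2 hω0)
    rw [Algebra.smul_def, map_div₀, map_pow, map_pow, div_mul_eq_mul_div, eq_div_iff h3, h2]
  have hs := minpoly.aeval E x
  rw [← hm, aeval_eq_sum_range] at hs
  obtain ⟨i, hi, j, hj, hij, h0, he⟩ := two_terms (v := v) hs (a := m.natDegree) (by simp)
    (by simp [hx0, hmon.coeff_natDegree])
  simp only [Algebra.smul_def, map_mul, map_pow, h1, one_pow, mul_one] at he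
  have h2 := h.pair (heig i) (heig j) (fun e => h0 (by simp [e])) he
  rw [div_eq_div_iff (pow_ne_zero _ hω0) (pow_ne_zero _ hω0), mul_right_inj' (pow_ne_zero _ hω0)]
    at h2
  exact hij (hprim.pow_inj ((Nat.lt_succ_iff.1 (mem_range.1 hj)).trans_lt hdeg)
    ((Nat.lt_succ_iff.1 (mem_range.1 hi)).trans_lt hdeg) h2).symm

theorem exists_ext {L : Type*} [Field L] (f : F →+* L) (v : Valuation F Γ) :
    ∃ O : ValuationSubring L, (O.valuation.comap f).IsEquiv v := by
  obtain ⟨O, h1, h2⟩ := IsLocalRing.exists_factor_valuationRing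
    (f.comp v.valuationSubring.subtype)
  refine ⟨O, Valuation.isEquiv_iff_val_le_one.2 fun {x} => ?_⟩
  rw [Valuation.comap_apply, O.valuation_le_one_iff]
  refine ⟨fun hx => ?_, fun hx => h1 ⟨x, hx⟩⟩
  by_contra! hc
  have hx0 : x ≠ 0 := fun e => by simp [e] at hc
  have h3 : v x⁻¹ < 1 := by
    rw [map_inv₀]
    exact inv_lt_one_of_one_lt₀ hc
  have h4 : IsUnit (⟨x⁻¹, h3.le⟩ : v.valuationSubring) := h2.map_nonunit _
    (IsUnit.of_mul_eq_one ⟨f x, hx⟩ (Subtype.ext (by simp [hx0])))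
  obtain ⟨y, hy⟩ := h4.exists_right_inv
  have h5 : v x⁻¹ * v y = 1 := by
    rw [← map_mul, ← map_one v]
    exact congrArg (fun z : v.valuationSubring => v z) hy
  exact absurd h5 ((mul_le_of_le_one_right' y.2).trans_lt h3).ne

theorem Good.of_isEquiv {Γ' : Type*} [LinearOrderedCommGroupWithZero Γ'] {v : Valuation F Γ}
    {w : Valuation F Γ'} (e : v.IsEquiv w) {φ : F →ₐ[k] F} (h : Good w φ) : Good v φ :=
  fun x ω h1 h2 => h x ω h1 (e.eq_one_iff_eq_one.1 h2)

end Pool.Agent.Work.MP_274868_ag.Cay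
end

-- merged part: Pool.Agent.Work.MP_274868_ag.Cay.Gauss
section
/-! Gauss valuations and one deformation step. -/

namespace Pool.Agent.Work.MP_274868_ag.Cay

open Finset Polynomial NNReal

variable {k E ι : Type*} [Field k] [Field E] [Algebra k E]

/-- a real valuation as an absolute value -/
noncomputable def toAbs (w : Valuation E ℝ≥0) : AbsoluteValue E ℝ where
  toFun x := w x
  map_mul' x y := by simp
  nonneg' x := (w x).2
  eq_zero' x := by simp
  add_le' x y := by
    have h : (w (x + y) : ℝ) ≤ max (w x : ℝ) (w y) := by exact_mod_cast w.map_add x y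
    exact h.trans (max_le_add_of_nonneg (w x).2 (w y).2)

theorem toAbs_na (w : Valuation E ℝ≥0) : IsNonarchimedean (toAbs w) := fun x y => by
  show (w (x + y) : ℝ) ≤ max (w x : ℝ) (w y)
  exact_mod_cast w.map_add x y

/-- the Gauss norm of radius `c` -/
noncomputable def gauss (w : Valuation E ℝ≥0) (c : ℝ) (f : E[X]) : ℝ := f.gaussNorm (toAbs w) c

/-- the Gauss valuation of radius `c` -/
noncomputable def gaussVal (w : Valuation E ℝ≥0) {c : ℝ} (hc : 0 < c) : Valuation E[X] ℝ≥0 where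
  toFun f := ⟨gauss w c f, f.gaussNorm_nonneg _ hc.le⟩
  map_zero' := Subtype.ext (gaussNorm_zero (toAbs w) c)
  map_one' := Subtype.ext ((gaussNorm_C (toAbs w) c 1).trans (map_one _))
  map_mul' f g := Subtype.ext (gaussNorm_mul (toAbs_na w) hc f g)
  map_add_le_max' f g := by
    have := isNonarchimedean_gaussNorm (toAbs w) (toAbs_na w) hc.le f g
    rcases le_max_iff.1 this with h | h
    · exact le_max_of_le_left h
    · exact le_max_of_le_right h

theorem gauss_C (w : Valuation E ℝ≥0) (c : ℝ) (a : E) : gauss w c (C a) = w a :=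
  gaussNorm_C (toAbs w) c a

theorem gauss_ne {w : Valuation E ℝ≥0} {c : ℝ} (hc : 0 < c) {f : E[X]} (hf : f ≠ 0) :
    gauss w c f ≠ 0 := fun h =>
  hf ((gaussNorm_eq_zero_iff (toAbs w) f (fun _ hx => (toAbs w).eq_zero.1 hx) hc).1 h)

theorem gauss_cont (w : Valuation E ℝ≥0) (f : E[X]) : Continuous fun c => gauss w c f := by
  unfold gauss gaussNorm
  split_ifs with h
  · exact Continuous.finset_sup'_apply h fun i _ => by fun_prop
  · exact continuous_const

theorem gauss_congr {w w' : Valuation E ℝ≥0} (c : ℝ) {f : E[X]}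
    (h : ∀ l, w (f.coeff l) = w' (f.coeff l)) : gauss w c f = gauss w' c f := by
  unfold gauss gaussNorm
  split_ifs with h0
  · refine sup'_congr h0 rfl fun i _ => ?_
    show (w _ : ℝ) * _ = (w' _ : ℝ) * _
    rw [h]
  · rfl

theorem gauss_shift_le {w : Valuation E ℝ≥0} {c : ℝ} (hc : 0 < c) {a : E} (ha : (w a : ℝ) ≤ c)
    (f : E[X]) : gauss w c (f.comp (X + C a)) ≤ gauss w c f := by
  have h1 : gaussVal w hc (X + C a) ≤ ⟨c, hc.le⟩ := by
    refine (gaussVal w hc).map_add_le ?_ ((gauss_C w c a).le.trans ha)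
    show gauss w c X ≤ c
    have := gaussNorm_monomial (toAbs w) c 1 1
    rw [(toAbs w).map_one, one_mul, pow_one] at this
    exact this.le
  show gaussVal w hc _ ≤ gaussVal w hc f
  rw [comp, eval₂_eq_sum, Polynomial.sum]
  refine (gaussVal w hc).map_sum_le fun l _ => ?_
  rw [map_mul, map_pow]
  refine (mul_le_mul_right (pow_le_pow_left' h1 l) _).trans ?_
  show gauss w c (C _) * c ^ l ≤ gauss w c f
  rw [gauss_C]
  exact le_gaussNorm (toAbs w) f hc.le l

theorem gauss_shift {w : Valuation E ℝ≥0} {c : ℝ} (hc : 0 < c) {a : E} (ha : (w a : ℝ) ≤ c)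
    (f : E[X]) : gauss w c (f.comp (X + C a)) = gauss w c f := by
  refine (gauss_shift_le hc ha f).antisymm ?_
  have := gauss_shift_le hc (a := -a) (by rwa [Valuation.map_neg]) (f.comp (X + C a))
  rwa [comp_assoc, show (X + C a : E[X]).comp (X + C (-a)) = X by simp, comp_X] at this

open Classical in
/-- substitute `X + e` for the variable `i` -/
noncomputable def jm (k : Type*) [Field k] [Algebra k E] (y : ι → E) (i : ι) (e : E) :
    MvPolynomial ι k →ₐ[k] E[X] :=
  MvPolynomial.aeval fun l => if l = i then X + C e else C (y l)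

theorem jm_self (y : ι → E) (i : ι) (e : E) : jm k y i e (.X i) = X + C e := by simp [jm]

theorem jm_ne (y : ι → E) {i l : ι} (h : l ≠ i) (e : E) : jm k y i e (.X l) = C (y l) := by
  simp [jm, h]

theorem jm_C (y : ι → E) (i : ι) (e : E) (r : k) : jm k y i e (.C r) = C (algebraMap k E r) := by
  simp [jm]

theorem eval_jm (y : ι → E) (i : ι) (e : E) (P : MvPolynomial ι k) :
    (jm k y i e P).eval (y i - e) = MvPolynomial.aeval y P := by
  induction P using MvPolynomial.induction_on with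
  | C r => simp
  | add P Q h1 h2 => simp [h1, h2]
  | mul_X P l h =>
    by_cases hl : l = i
    · simp [h, hl, jm_self]
    · simp [h, jm_ne y hl]

theorem jm_shift (y : ι → E) (i : ι) (e : E) (P : MvPolynomial ι k) :
    jm k y i e P = (jm k y i 0 P).comp (X + C e) := by
  induction P using MvPolynomial.induction_on with
  | C r => simp
  | add P Q h1 h2 => simp [h1, h2]
  | mul_X P l h =>
    by_cases hl : l = i
    · simp [h, hl, jm_self]
    · simp [h, jm_ne y hl]

theorem coeff_mem (y : ι → E) {i : ι} {T : Set ι} (hi : i ∉ T) {x : E}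
    (hx : x ∈ Algebra.adjoin k (y '' insert i T)) : ∃ P : MvPolynomial ι k,
      MvPolynomial.aeval y P = x ∧ ∀ l, (jm k y i 0 P).coeff l ∈ Algebra.adjoin k (y '' T) := by
  induction hx using Algebra.adjoin_induction with
  | mem x hx =>
    obtain ⟨l, hl, rfl⟩ := hx
    refine ⟨.X l, by simp, fun n => ?_⟩
    rcases hl with rfl | hl
    · rw [jm_self, map_zero, add_zero, coeff_X]
      split_ifs
      exacts [one_mem _, zero_mem _]
    · rw [jm_ne y (fun e : l = i => hi (e ▸ hl)), coeff_C]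
      split_ifs
      exacts [Algebra.subset_adjoin ⟨l, hl, rfl⟩, zero_mem _]
  | algebraMap r =>
    refine ⟨.C r, by simp, fun n => ?_⟩
    rw [jm_C, coeff_C]
    split_ifs
    exacts [algebraMap_mem _ _, zero_mem _]
  | add a b _ _ h1 h2 =>
    obtain ⟨P, rfl, hP⟩ := h1
    obtain ⟨Q, rfl, hQ⟩ := h2
    exact ⟨P + Q, map_add _ _ _, fun n => by
      rw [map_add, coeff_add]
      exact add_mem (hP n) (hQ n)⟩
  | mul a b _ _ h1 h2 =>
    obtain ⟨P, rfl, hP⟩ := h1
    obtain ⟨Q, rfl, hQ⟩ := h2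
    exact ⟨P * Q, map_mul _ _ _, fun n => by
      rw [map_mul, coeff_mul]
      exact sum_mem fun z _ => mul_mem (hP _) (hQ _)⟩

/-- trivial on the constants, with countably many values -/
def Tame (k : Type*) [Field k] [Algebra k E] (w : Valuation E ℝ≥0) : Prop :=
  w.IsTrivialOn k ∧ (Set.range w).Countable

/-- independent generators -/
structure Gens (k : Type*) [Field k] [Algebra k E] (y : ι → E) : Prop where
  ind : AlgebraicIndependent k y
  gen : IntermediateField.adjoin k (Set.range y) = ⊤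

theorem Gens.frac {y : ι → E} (h : Gens k y) (x : E) : ∃ P Q : MvPolynomial ι k, Q ≠ 0 ∧
    x = MvPolynomial.aeval y P / MvPolynomial.aeval y Q := by
  obtain ⟨P, Q, hx⟩ := (IntermediateField.mem_adjoin_range_iff k y x).1
    (h.gen.ge IntermediateField.mem_top)
  by_cases hQ : Q = 0
  · exact ⟨0, 1, one_ne_zero, by simpa [hQ] using hx⟩
  · exact ⟨P, Q, hQ, hx⟩

theorem Gens.ne {y : ι → E} (h : Gens k y) {P : MvPolynomial ι k} (hP : P ≠ 0) :
    MvPolynomial.aeval y P ≠ 0 := (map_ne_zero_iff _ h.ind).2 hP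

theorem Gens.jm_ne {y : ι → E} (h : Gens k y) (i : ι) (e : E) {P : MvPolynomial ι k} (hP : P ≠ 0) :
    jm k y i e P ≠ 0 := fun h0 => h.ne hP (by rw [← eval_jm y i e, h0, eval_zero])

theorem step {y : ι → E} (h : Gens k y) {w : Valuation E ℝ≥0} (hw : Tame k w) (i : ι) (e : E)
    {c : ℝ} (hc : 0 < c) : ∃ u : Valuation E ℝ≥0, Tame k u ∧
      ∀ P, (u (MvPolynomial.aeval y P) : ℝ) = gauss w c (jm k y i e P) := by
  let _ : Algebra (MvPolynomial ι k) E := (MvPolynomial.aeval y).toRingHom.toAlgebra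
  have : FaithfulSMul (MvPolynomial ι k) E := (faithfulSMul_iff_algebraMap_injective _ _).2 h.ind
  have : IsFractionRing (MvPolynomial ι k) E := IsFractionRing.of_field _ _ fun z => by
    obtain ⟨P, Q, -, hz⟩ := h.frac z
    exact ⟨P, Q, hz⟩
  let v := (gaussVal w hc).comap (jm k y i e).toRingHom
  have hS : nonZeroDivisors (MvPolynomial ι k) ≤ v.supp.primeCompl := fun P hP h0 =>
    gauss_ne hc (h.jm_ne i e (nonZeroDivisors.ne_zero hP)) (congrArg Subtype.val h0)
  have h1 : ∀ P, (v.extendToLocalization hS E (MvPolynomial.aeval y P) : ℝ) =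
      gauss w c (jm k y i e P) := fun P =>
    congrArg Subtype.val (v.extendToLocalization_apply_map_apply hS E P)
  refine ⟨v.extendToLocalization hS E, ⟨⟨fun r hr => NNReal.eq ?_⟩, ?_⟩, h1⟩
  · have := h1 (.C r)
    rw [jm_C, gauss_C, hw.1.eq_one r hr] at this
    simpa using this
  · let c' : ℝ≥0 := ⟨c, hc.le⟩
    have hT := hw.2.image2 (Set.countable_univ (α := ℕ)) fun a l => a * c' ^ l
    have h2 : ∀ P, v.extendToLocalization hS E (MvPolynomial.aeval y P) ∈
        Set.image2 (fun a (l : ℕ) => a * c' ^ l) (Set.range w) Set.univ := fun P => by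
      obtain ⟨l, hl⟩ := exists_eq_gaussNorm (toAbs w) c (jm k y i e P)
      exact ⟨_, ⟨_, rfl⟩, l, trivial, NNReal.eq ((h1 P).trans hl).symm⟩
    refine (hT.image2 hT fun a b => a / b).mono ?_
    rintro _ ⟨x, rfl⟩
    obtain ⟨P, Q, -, rfl⟩ := h.frac x
    exact ⟨_, h2 P, _, h2 Q, (map_div₀ _ _ _).symm⟩

/-- the pair form of `Good` on a subalgebra -/
def PG (w : Valuation E ℝ≥0) (φ : E →ₐ[k] E) (S : Subalgebra k E) : Prop :=
  ∀ x ∈ S, ∀ x' ∈ S, ∀ a b : k, φ x = a • x → φ x' = b • x' → x' ≠ 0 → w x = w x' → a = b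

/-- what is needed at radius `c` -/
def Hyp (w : Valuation E ℝ≥0) (φ : E →ₐ[k] E) (S : Subalgebra k E) (c : ℝ) (t : k) : Prop :=
  ∀ f ∈ S, ∀ g ∈ S, ∀ (a b : k) (l l' : ℕ), φ f = a • f → φ g = b • g → g ≠ 0 →
    (w f : ℝ) * c ^ l = w g * c ^ l' → a * t ^ l = b * t ^ l'

section
variable {y : ι → E} (h : Gens k y) {φ : E →ₐ[k] E} {χ : ι → k} (hχ : ∀ l, φ (y l) = χ l • y l)
include h hχ

theorem chi_ne (l : ι) : χ l ≠ 0 := fun h0 => by
  have := hχ l
  rw [h0, zero_smul, _root_.map_eq_zero] at this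
  exact h.ind.ne_zero l this

theorem coeff_eig {i : ι} {e : E} (he : φ e = χ i • e) {P : MvPolynomial ι k} {a : k}
    (hP : φ (MvPolynomial.aeval y P) = a • MvPolynomial.aeval y P) (n : ℕ) :
    φ ((jm k y i e P).coeff n) = (a / χ i ^ n) • (jm k y i e P).coeff n := by
  let D : MvPolynomial ι k →ₐ[k] MvPolynomial ι k := MvPolynomial.aeval fun l => χ l • .X l
  have h1 : ∀ Q, MvPolynomial.aeval y (D Q) = φ (MvPolynomial.aeval y Q) := fun Q =>
    DFunLike.congr_fun (MvPolynomial.algHom_ext (f := (MvPolynomial.aeval y).comp D)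
      (g := φ.comp (MvPolynomial.aeval y)) fun l => by simp [D, hχ]) Q
  have h2 : D P = a • P := h.ind (by rw [h1, hP, map_smul])
  have h3 : ∀ Q, jm k y i e (D Q) =
      ((jm k y i e Q).map (φ : E →+* E)).comp (C (algebraMap k E (χ i)) * X) := fun Q => by
    induction Q using MvPolynomial.induction_on with
    | C r => simp [D]
    | add P Q h1 h2 => simp [h1, h2]
    | mul_X P l h =>
      have h4 : D (.X l) = χ l • .X l := by simp [D]
      rw [map_mul, map_mul, h, map_mul, Polynomial.map_mul, mul_comp, h4, map_smul]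
      congr 1
      by_cases hl : l = i
      · simp [hl, jm_self, he, Algebra.smul_def, mul_add]
      · simp [jm_ne y hl, hχ, Algebra.smul_def]
  have h5 := congrArg (fun q => q.coeff n) (h3 P)
  simp only [h2, map_smul, coeff_smul, comp_C_mul_X_coeff, coeff_map] at h5
  have h6 : algebraMap k E (χ i) ^ n ≠ 0 :=
    pow_ne_zero _ ((_root_.map_ne_zero _).2 (chi_ne h hχ i))
  rw [Algebra.smul_def, map_div₀, map_pow, div_mul_eq_mul_div, eq_div_iff h6, ← Algebra.smul_def,
    h5]
  rfl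

theorem pg_of_hyp {i : ι} {e : E} (he : φ e = χ i • e) {w u : Valuation E ℝ≥0} {c : ℝ}
    (hc : 0 < c) (hu : ∀ P, (u (MvPolynomial.aeval y P) : ℝ) = gauss w c (jm k y i e P))
    {S S' : Subalgebra k E} (hS : ∀ x ∈ S', ∃ P : MvPolynomial ι k,
      MvPolynomial.aeval y P = x ∧ ∀ l, (jm k y i e P).coeff l ∈ S) (H : Hyp w φ S c (χ i)) :
    PG u φ S' := by
  intro x hx x' hx' a b h1 h2 h0 h3
  obtain ⟨P, rfl, hP⟩ := hS x hx
  obtain ⟨Q, rfl, hQ⟩ := hS x' hx'
  obtain ⟨l, hl⟩ := exists_eq_gaussNorm (toAbs w) c (jm k y i e P)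
  obtain ⟨l', hl'⟩ := exists_eq_gaussNorm (toAbs w) c (jm k y i e Q)
  have h4 : gauss w c (jm k y i e P) = gauss w c (jm k y i e Q) := by rw [← hu, ← hu, h3]
  have h5 := H _ (hP l) _ (hQ l') _ _ l l' (coeff_eig h hχ he h1 l) (coeff_eig h hχ he h2 l')
    (fun e0 => gauss_ne (w := w) hc (h.jm_ne i e fun e1 => h0 (by simp [e1]))
      (hl'.trans (by simp [e0]))) (hl.symm.trans (h4.trans hl'))
  rwa [div_mul_cancel₀ _ (pow_ne_zero _ (chi_ne h hχ i)),
    div_mul_cancel₀ _ (pow_ne_zero _ (chi_ne h hχ i))] at h5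

theorem good_of_pg {p : ℕ} (hp : 0 < p) (hφ : φ ^ p = 1) {u : Valuation E ℝ≥0}
    (H : PG u φ (MvPolynomial.aeval y).range) : Good u φ := by
  intro x a h1 h2
  have h3 : ∀ z ∈ (MvPolynomial.aeval y : MvPolynomial ι k →ₐ[k] E).range,
      φ z ∈ (MvPolynomial.aeval y : MvPolynomial ι k →ₐ[k] E).range := by
    rw [← Algebra.adjoin_range_eq_range_aeval]
    refine fun z hz => (Algebra.adjoin_le
      (S := Subalgebra.comap φ (Algebra.adjoin k (Set.range y))) ?_) hz
    rintro _ ⟨l, rfl⟩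
    show φ (y l) ∈ Algebra.adjoin k _
    rw [hχ]
    exact Subalgebra.smul_mem _ (Algebra.subset_adjoin (Set.mem_range_self l)) _
  obtain ⟨P, Q, hQ, hx⟩ := h.frac x
  obtain ⟨n, rfl⟩ := Nat.exists_eq_succ_of_ne_zero hp.ne'
  set q := MvPolynomial.aeval y Q with hq
  have h4 : ∀ j, (φ ^ j) q ∈ (MvPolynomial.aeval y : MvPolynomial ι k →ₐ[k] E).range := fun j => by
    induction j with
    | zero => exact ⟨Q, rfl⟩
    | succ j ih => exact pow_succ_apply φ j q ▸ h3 _ ih
  have h5 : ∀ j, (φ ^ j) q ≠ 0 := fun j => (_root_.map_ne_zero _).2 (h.ne hQ)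
  set N := ∏ j ∈ range (n + 1), (φ ^ j) q with hN
  have h6 : φ N = (1 : k) • N := by
    rw [one_smul, hN, map_prod, prod_range_succ, prod_range_succ', ← pow_succ_apply φ n, hφ]
    simp only [pow_succ_apply]
    rfl
  refine H (x * N) ?_ N (prod_mem fun j _ => h4 j) a 1 (by rw [map_mul, h1, h6]; simp) h6
    (prod_ne_zero_iff.2 fun j _ => h5 j) (by rw [map_mul, h2, one_mul])
  have h7 : x * N = MvPolynomial.aeval y P * ∏ j ∈ range n, (φ ^ (j + 1)) q := by
    rw [hN, prod_range_succ', hx, pow_zero, AlgHom.one_apply]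
    have : q ≠ 0 := h.ne hQ
    field_simp
  rw [h7]
  exact mul_mem ⟨P, rfl⟩ (prod_mem fun j _ => h4 _)

end

/-- the radii that are roots of values -/
def Bad (w : Valuation E ℝ≥0) : Set ℝ := {t | ∃ (l : ℕ) (x : E), (w x : ℝ) = Real.exp t ^ (l + 1)}

theorem bad_countable {w : Valuation E ℝ≥0} (hw : (Set.range w).Countable) :
    (Bad w).Countable := by
  refine (hw.image2 (Set.countable_univ (α := ℕ)) fun a l => Real.log a / (l + 1)).mono ?_
  rintro t ⟨l, x, h⟩
  refine ⟨_, ⟨x, rfl⟩, l, trivial, ?_⟩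
  simp only [h, Real.log_pow, Real.log_exp]
  push_cast
  field_simp

theorem hyp_generic {w : Valuation E ℝ≥0} {φ : E →ₐ[k] E} {S : Subalgebra k E} (H : PG w φ S)
    {t : ℝ} (ht : t ∉ Bad w) (r : k) : Hyp w φ S (Real.exp t) r := by
  intro f hf g hg a b l l' h1 h2 h0 h3
  have hc := Real.exp_pos t
  have hg0 : (w g : ℝ) ≠ 0 := by simpa using h0
  have hf0 : (w f : ℝ) ≠ 0 := fun e => by simp [e, hg0] at h3
  obtain rfl : l = l' := by
    rcases lt_trichotomy l l' with e | e | e
    · obtain ⟨n, rfl⟩ := Nat.exists_eq_add_of_lt e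
      refine absurd ⟨n, f / g, ?_⟩ ht
      rw [map_div₀, NNReal.coe_div, div_eq_iff hg0]
      apply mul_right_cancel₀ (pow_ne_zero l hc.ne')
      rw [h3]
      ring
    · exact e
    · obtain ⟨n, rfl⟩ := Nat.exists_eq_add_of_lt e
      refine absurd ⟨n, g / f, ?_⟩ ht
      rw [map_div₀, NNReal.coe_div, div_eq_iff hf0]
      apply mul_right_cancel₀ (pow_ne_zero l' hc.ne')
      rw [← h3]
      ring
  rw [H f hf g hg a b h1 h2 h0 (NNReal.eq (mul_right_cancel₀ (pow_ne_zero l hc.ne') h3))]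

theorem hyp_pi {w : Valuation E ℝ≥0} {φ : E →ₐ[k] E} (H : Good w φ) {c : ℝ} (hc : 0 < c) {r : k}
    (hr : r ≠ 0) {n : ℤ} {π : E} (h1 : (w π : ℝ) = c ^ n) (h2 : φ π = r ^ n • π)
    (h3 : ∀ (l : ℤ) (x : E), (w x : ℝ) = c ^ l → n ∣ l) : Hyp w φ ⊤ c r := by
  intro f _ g _ a b l l' hf hg h0 h4
  have hg0 : (w g : ℝ) ≠ 0 := by simpa using h0
  have h5 : (w (f / g) : ℝ) = c ^ ((l' : ℤ) - l) := by
    rw [map_div₀, NNReal.coe_div, zpow_sub₀ hc.ne', div_eq_div_iff hg0 (zpow_ne_zero _ hc.ne'),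
      zpow_natCast, zpow_natCast, h4, mul_comm]
  obtain ⟨e, he⟩ := h3 _ _ h5
  have hπ : π ≠ 0 := fun e0 => by
    rw [e0, map_zero] at h1
    exact (zpow_pos hc n).ne h1
  have h6 := H.pair (eig_div hf hg) (eig_zpow h2 e) (zpow_ne_zero _ hπ) (NNReal.eq (by
    rw [h5, map_zpow₀, NNReal.coe_zpow, h1, he, zpow_mul]))
  rw [← zpow_mul, ← he, zpow_sub₀ hr, zpow_natCast, zpow_natCast] at h6
  have hb : b ≠ 0 := fun e0 => by
    rw [e0, zero_smul, _root_.map_eq_zero] at hg
    exact h0 hg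
  rw [(div_eq_div_iff hb (pow_ne_zero _ hr)).1 h6, mul_comm]

end Pool.Agent.Work.MP_274868_ag.Cay
end

-- merged part: Pool.Agent.Work.MP_274868_ag.Cay.Conn
section
/-! Good valuations on a linear field: existence and connectedness. -/

namespace Pool.Agent.Work.MP_274868_ag.Cay

open Finset Polynomial NNReal Filter Topology

variable {k E ι A : Type*} [Field k] [Field E] [Algebra k E] [CommGroup A]

/-- the standing assumptions on the group and the constants -/
structure Base (k A : Type*) [Field k] [CommGroup A] (p : ℕ) (ε : k) : Prop where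
  prime : p.Prime
  prim : IsPrimitiveRoot ε p
  exp : ∀ a : A, a ^ p = 1
  card : p < Nat.card A

theorem Base.pow {p : ℕ} {ε : k} (B : Base k A p ε) (ρ : A →* (E →ₐ[k] E)) (a : A) :
    ρ a ^ p = 1 := by rw [← map_pow, B.exp, map_one]

theorem Base.finite {p : ℕ} {ε : k} (B : Base k A p ε) : Finite A :=
  Nat.finite_of_card_ne_zero (Nat.ne_zero_of_lt B.card)

theorem act_mul (ρ : A →* (E →ₐ[k] E)) (a b : A) (x : E) : ρ (a * b) x = ρ a (ρ b x) := by
  rw [map_mul]
  rfl

theorem act_comm (ρ : A →* (E →ₐ[k] E)) (a b : A) (x : E) : ρ a (ρ b x) = ρ b (ρ a x) := by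
  rw [← act_mul, mul_comm, act_mul]

/-- an eigenspace -/
def eigsp (φ : E →ₐ[k] E) (μ : k) : Submodule k E where
  carrier := {z | φ z = μ • z}
  add_mem' {a b} ha hb := by
    simp only [Set.mem_ofPred_eq] at *
    rw [map_add, ha, hb, smul_add]
  zero_mem' := by simp
  smul_mem' c z hz := by
    simp only [Set.mem_ofPred_eq] at *
    rw [map_smul, hz, smul_comm]

theorem eigsp_stable (ρ : A →* (E →ₐ[k] E)) (a b : A) (μ : k) :
    ∀ z ∈ eigsp (ρ b) μ, ρ a z ∈ eigsp (ρ b) μ := fun z hz => by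
  show ρ b _ = _
  rw [act_comm, show ρ b z = μ • z from hz, map_smul]

theorem exists_good [Finite ι] {y : ι → E} (h : Gens k y) {G : Type*} {ρ : G → E →ₐ[k] E}
    {χ : G → ι → k} (hχ : ∀ a l, ρ a (y l) = χ a l • y l) {N : ℕ} (hN : 0 < N)
    (hρ : ∀ a, ρ a ^ N = 1) : ∃ w : Valuation E ℝ≥0, Tame k w ∧ ∀ a, Good w (ρ a) := by
  classical
  have := Fintype.ofFinite ι
  have h1 : ∀ S : Finset ι, ∃ w : Valuation E ℝ≥0, Tame k w ∧
      ∀ a, PG w (ρ a) (Algebra.adjoin k (y '' S)) := fun S => by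
    induction S using Finset.induction_on with
    | empty =>
      refine ⟨1, ⟨⟨fun r hr => Valuation.one_apply_of_ne_zero ((_root_.map_ne_zero _).2 hr)⟩,
        (Set.toFinite {0, 1}).countable.mono ?_⟩, fun a x hx x' hx' r s h1 h2 h0 h3 => ?_⟩
      · rintro _ ⟨x, rfl⟩
        by_cases hx : x = 0 <;> simp [Valuation.one_apply_def, hx]
      · have h4 : ∀ {z : E} {r : k}, z ∈ Algebra.adjoin k (y '' (∅ : Finset ι)) → z ≠ 0 →
            ρ a z = r • z → r = 1 := fun {z r} hz h0 he => by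
          rw [coe_empty, Set.image_empty, Algebra.adjoin_empty, Algebra.mem_bot] at hz
          obtain ⟨s, rfl⟩ := hz
          rw [AlgHom.commutes, Algebra.smul_def, eq_comm, mul_eq_right₀ h0] at he
          exact (algebraMap k E).injective (by rw [he, map_one])
        rw [h4 hx' h0 h2, h4 hx (fun e => h0 (by simpa [e] using h3.symm)) h1]
    | insert i S hi ih =>
      obtain ⟨w, hw, hg⟩ := ih
      obtain ⟨t, ht⟩ := ((bad_countable hw.2).dense_compl ℝ).nonempty
      obtain ⟨u, hu, hf⟩ := step h hw i 0 (Real.exp_pos t)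
      exact ⟨u, hu, fun a => pg_of_hyp h (hχ a) (by simp) (Real.exp_pos t) hf
        (fun x hx => coeff_mem y (T := S) hi (by rwa [coe_insert] at hx))
        (hyp_generic (hg a) ht _)⟩
  obtain ⟨w, hw, hg⟩ := h1 univ
  refine ⟨w, hw, fun a => good_of_pg h (hχ a) hN (hρ a) ?_⟩
  have := hg a
  rwa [coe_univ, Set.image_univ, Algebra.adjoin_range_eq_range_aeval] at this

theorem lin [CharZero k] [Finite A] {N : ℕ} (hN : 0 < N) {η : k} (hη : IsPrimitiveRoot η N)
    (hA : ∀ a : A, a ^ N = 1) (ρ : A →* (E →ₐ[k] E)) {V : Type*} [Fintype V] {x : V → E}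
    (hgen : IntermediateField.adjoin k (Set.range x) = ⊤)
    (hst : ∀ a v, ρ a (x v) ∈ Submodule.span k (Set.range x))
    (htr : (Fintype.card V : Cardinal) ≤ Algebra.trdeg k E) :
    ∃ (s : Set E) (χ : A → s → k), Finite s ∧ Gens k (Subtype.val : s → E) ∧
      ∀ a (l : s), ρ a l = χ a l • l.1 := by
  classical
  have := Fintype.ofFinite A
  set U := Submodule.span k (Set.range x) with hU
  have h1 : ∀ a, ∀ z ∈ U, ρ a z ∈ U := fun a z hz =>
    (Submodule.span_le (p := U.comap (ρ a).toLinearMap)).2 (Set.range_subset_iff.2 (hst a)) hz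
  have h2 : ∀ T : Finset A,
      U ≤ Submodule.span k {z | z ∈ U ∧ ∀ a ∈ T, ∃ r : k, ρ a z = r • z} := fun T => by
    induction T using Finset.cons_induction with
    | empty => exact fun z hz => Submodule.subset_span ⟨hz, by simp⟩
    | cons a T ha ih =>
      refine ih.trans (Submodule.span_le.2 fun z hz => ?_)
      obtain ⟨c, h3, h4, h5⟩ := decomp hN hη (φ := ρ a) (by rw [← map_pow, hA, map_one]) z
      rw [← h3]
      refine Submodule.sum_mem _ fun i _ => Submodule.subset_span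
        ⟨h5 U (h1 a) hz.1 i, fun b hb => ?_⟩
      rcases mem_cons.1 hb with rfl | hb
      · exact ⟨_, h4 i⟩
      · obtain ⟨μ, hμ⟩ := hz.2 b hb
        exact ⟨μ, h5 _ (eigsp_stable ρ a b μ) hμ i⟩
  obtain ⟨s, h3, h4, h5⟩ := exists_linearIndependent k
    {z | z ∈ U ∧ ∀ a ∈ (univ : Finset A), ∃ r : k, ρ a z = r • z}
  have h6 := linearIndependent_le_span' _ h5 (Set.range x) (by
    rintro _ ⟨z, rfl⟩
    exact (h3 z.2).1)
  have h7 : Finite s := Cardinal.lt_aleph0_iff_finite.1 (h6.trans_lt Cardinal.natCast_lt_aleph0)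
  have h8 : IntermediateField.adjoin k (Set.range (Subtype.val : s → E)) = ⊤ := by
    rw [Subtype.range_coe]
    refine top_le_iff.1 (hgen.ge.trans (IntermediateField.adjoin_le_iff.2 ?_))
    rintro _ ⟨v, rfl⟩
    exact (Submodule.span_le (p := (IntermediateField.adjoin k s).toSubalgebra.toSubmodule)).2
      (IntermediateField.subset_adjoin k s)
      (h4.ge (h2 univ (Submodule.subset_span ⟨v, rfl⟩)))
  have h9 : Algebra.IsAlgebraic (Algebra.adjoin k (Set.range (Subtype.val : s → E))) E :=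
    IntermediateField.isAlgebraic_adjoin_iff_top.1 ⟨fun e => isAlgebraic_algebraMap
      (⟨e, h8.ge IntermediateField.mem_top⟩ : IntermediateField.adjoin k _)⟩
  choose χ hχ using fun a (l : s) => (h3 l.2).2 a (mem_univ a)
  exact ⟨s, χ, h7, ⟨(Algebra.IsAlgebraic.isTranscendenceBasis_of_le_trdeg_of_finite k _
    (h6.trans ((Nat.cast_le.2 (Fintype.card_range_le x)).trans htr))).1, h8⟩, hχ⟩

variable [CharZero k] {p : ℕ} {ε : k} (B : Base k A p ε) {ρ : A →* (E →ₐ[k] E)}
include B

theorem joint {w : Valuation E ℝ≥0} (hv : w.IsTrivialOn k) (hw : ∀ a, Good w (ρ a)) {x : E}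
    (hx : x ≠ 0) : ∃ π, w π = w x ∧ ∀ a, ∃ μ : k, ρ a π = μ • π := by
  have := B.finite
  have := Fintype.ofFinite A
  have h : ∀ s : Finset A, ∃ π, w π = w x ∧ ∀ a ∈ s, ∃ μ : k, ρ a π = μ • π := fun s => by
    induction s using Finset.cons_induction with
    | empty => exact ⟨x, rfl, by simp⟩
    | cons a s ha ih =>
      obtain ⟨π, h1, h2⟩ := ih
      obtain ⟨π', ω, h3, -, h4, -, h5⟩ := lead B.prime B.prim (B.pow ρ a) hv (hw a) (x := π)
        (fun e => hx (by simpa [e] using h1.symm))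
      refine ⟨π', (val_of_sub_lt h4).symm.trans h1, fun b hb => ?_⟩
      rcases mem_cons.1 hb with rfl | hb
      · exact ⟨ω, h3⟩
      · obtain ⟨μ, hμ⟩ := h2 b hb
        exact ⟨μ, h5 _ (eigsp_stable ρ a b μ) hμ⟩
  obtain ⟨π, h1, h2⟩ := h univ
  exact ⟨π, h1, fun a => h2 a (mem_univ a)⟩

omit [CharZero k] in
theorem exists_fix {z : E} (hz : z ≠ 0) (h : ∀ a, ∃ μ : k, ρ a z = μ • z) :
    ∃ a ≠ 1, ρ a z = z := by
  have := B.finite
  have := Fintype.ofFinite A
  choose μ hμ using h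
  obtain ⟨a, -, b, -, hab, he⟩ := exists_ne_map_eq_of_card_lt_of_maps_to (s := univ)
    (t := nthRootsFinset p (1 : k)) (f := μ)
    (by rw [B.prim.card_nthRootsFinset, card_univ, ← Nat.card_eq_fintype_card]; exact B.card)
    fun a _ => (mem_nthRootsFinset B.prime.pos 1).2 (eig_pow_eq_one (B.pow ρ a) (hμ a) hz)
  refine ⟨b⁻¹ * a, fun e => hab (inv_mul_eq_one.1 e).symm, ?_⟩
  rw [act_mul, hμ a, he, ← hμ b, ← act_mul, inv_mul_cancel, map_one, AlgHom.one_apply]

theorem exists_hyp {w : Valuation E ℝ≥0} (hv : w.IsTrivialOn k) (hw : ∀ a, Good w (ρ a)) {c : ℝ}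
    (hc : 0 < c) {y : E} (hy : y ≠ 0) {χ : A → k} (hχ : ∀ a, ρ a y = χ a • y) :
    ∃ a ≠ 1, Hyp w (ρ a) ⊤ c (χ a) := by
  let Λ : AddSubgroup ℤ :=
    { carrier := {l | ∃ x : E, (w x : ℝ) = c ^ l}
      add_mem' := by
        rintro a b ⟨x, hx⟩ ⟨z, hz⟩
        exact ⟨x * z, by rw [map_mul, NNReal.coe_mul, hx, hz, zpow_add₀ hc.ne']⟩
      zero_mem' := ⟨1, by simp⟩
      neg_mem' := by
        rintro a ⟨x, hx⟩
        exact ⟨x⁻¹, by rw [map_inv₀, NNReal.coe_inv, hx, zpow_neg]⟩ }
  obtain ⟨n, hn⟩ := Int.subgroup_cyclic Λ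
  obtain ⟨x, hx⟩ : n ∈ Λ := hn ▸ AddSubgroup.mem_closure_singleton_self n
  have hx0 : x ≠ 0 := fun e => by
    rw [e, map_zero] at hx
    exact (zpow_pos hc n).ne hx
  obtain ⟨π, h1, h2⟩ := joint B hv hw hx0
  have hπ : π ≠ 0 := fun e => hx0 (by simpa [e] using h1.symm)
  obtain ⟨a, ha, h3⟩ := exists_fix B (div_ne_zero hπ (zpow_ne_zero n hy)) fun a => by
    obtain ⟨μ, hμ⟩ := h2 a
    exact ⟨_, eig_div hμ (eig_zpow (hχ a) n)⟩
  refine ⟨a, ha, hyp_pi (hw a) hc (fun e => ?_) (n := n) (π := π) (by rw [h1, hx]) ?_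
    fun l z hz => ?_⟩
  · have := hχ a
    rw [e, zero_smul, _root_.map_eq_zero] at this
    exact hy this
  · rw [← div_mul_cancel₀ π (zpow_ne_zero n hy), map_mul, h3, eig_zpow (hχ a), mul_smul_comm]
  · have : l ∈ AddSubgroup.closure {n} := hn ▸ (⟨z, hz⟩ : l ∈ Λ)
    obtain ⟨e, he⟩ := AddSubgroup.mem_closure_singleton.1 this
    exact ⟨e, by rw [← he, smul_eq_mul, mul_comm]⟩

variable {y : ι → E} (h : Gens k y) {χ : A → ι → k} (hχ : ∀ a l, ρ a (y l) = χ a l • y l)
include h hχ

variable {c : A → E}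
  (H1 : ∀ w : Valuation E ℝ≥0, Tame k w → ∀ a ≠ 1, Good w (ρ a) →
    ∃ r : k, w (c a - algebraMap k E r) < 1)
  (H2 : ∀ w : Valuation E ℝ≥0, Tame k w → (∀ a, Good w (ρ a)) → ∀ a ≠ 1, ∀ b ≠ 1,
    w (c a - c b) < 1) {a₁ : A} (ha : a₁ ≠ 1)
include H1 H2 ha

theorem one_var {w : Valuation E ℝ≥0} (hw : Tame k w) (hg : ∀ a, Good w (ρ a)) (i : ι)
    {W : ℝ → Valuation E ℝ≥0} (hW : ∀ t, Tame k (W t) ∧ ∀ P, (W t (MvPolynomial.aeval y P) : ℝ) =
      gauss w (Real.exp t) (jm k y i (y i) P)) {t : ℝ} (ht : t ∉ Bad w) :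
    (∀ a, Good (W t) (ρ a)) ∧ ∀ r : k, w (c a₁ - algebraMap k E r) < 1 →
      W t (c a₁ - algebraMap k E r) < 1 := by
  have hy : ∀ s a, Hyp w (ρ a) ⊤ (Real.exp s) (χ a i) → Good (W s) (ρ a) := fun s a H =>
    good_of_pg h (hχ a) B.prime.pos (B.pow ρ a) (pg_of_hyp h (hχ a) (hχ a i) (Real.exp_pos s)
      (hW s).2 (fun x ⟨P, hP⟩ => ⟨P, hP, fun _ => Algebra.mem_top⟩) H)
  have hall : ∀ s ∉ Bad w, ∀ a, Good (W s) (ρ a) := fun s hs a =>
    hy s a (hyp_generic (fun _ _ _ _ _ _ h1 h2 h0 h3 => (hg a).pair h1 h2 h0 h3) hs _)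
  refine ⟨hall t ht, fun r hr => ?_⟩
  have hlt : ∀ (P Q : MvPolynomial ι k), Q ≠ 0 → ∀ s,
      W s (MvPolynomial.aeval y P / MvPolynomial.aeval y Q) < 1 ↔
        gauss w (Real.exp s) (jm k y i (y i) P) < gauss w (Real.exp s) (jm k y i (y i) Q) :=
    fun P Q hQ s => by
      rw [map_div₀, div_lt_one₀ (zero_lt_iff.2 ((_root_.map_ne_zero _).2 (h.ne hQ))), ← (hW s).2,
        ← (hW s).2, NNReal.coe_lt_coe]
  have hop : ∀ x, IsOpen {s | W s x < 1} := fun x => by
    obtain ⟨P, Q, hQ, rfl⟩ := h.frac x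
    simp only [hlt P Q hQ]
    exact isOpen_lt ((gauss_cont w _).comp Real.continuous_exp)
      ((gauss_cont w _).comp Real.continuous_exp)
  have hbot : ∀ᶠ s in atBot, W s (c a₁ - algebraMap k E r) < 1 := by
    obtain ⟨P, Q, hQ, e⟩ := h.frac (c a₁ - algebraMap k E r)
    rw [e] at hr ⊢
    simp only [hlt P Q hQ]
    have h0 : ∀ P, gauss w 0 (jm k y i (y i) P) = w (MvPolynomial.aeval y P) := fun P => by
      rw [← eval_jm y i (y i), sub_self, ← coeff_zero_eq_eval_zero]
      exact gaussNorm_zero_right (toAbs w) _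
    refine (((gauss_cont w _).tendsto 0).comp Real.tendsto_exp_atBot).eventually_lt
      (((gauss_cont w _).tendsto 0).comp Real.tendsto_exp_atBot) ?_
    rw [h0, h0, NNReal.coe_lt_coe]
    rwa [map_div₀, div_lt_one₀ (zero_lt_iff.2 ((_root_.map_ne_zero _).2 (h.ne hQ)))] at hr
  let U : Set ℝ := {s | ∀ᶠ s' in 𝓝 s, s' ∉ Bad w → W s' (c a₁ - algebraMap k E r) < 1}
  let U' : Set ℝ := {s | ∀ᶠ s' in 𝓝 s, s' ∉ Bad w → ¬W s' (c a₁ - algebraMap k E r) < 1}
  have hU : Set.univ ⊆ U := by
    refine isPreconnected_univ.subset_left_of_subset_union (v := U')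
      isOpen_setOfPred_eventually_nhds isOpen_setOfPred_eventually_nhds
      (Set.disjoint_left.2 fun s h1 h2 => ?_) (fun s _ => ?_) ?_
    · obtain ⟨s', h3, h4, h5⟩ := ((bad_countable hw.2).dense_compl ℝ).inter_nhds_nonempty
        (Filter.Eventually.and h1 h2)
      exact h5 h3 (h4 h3)
    · obtain ⟨a, ha1, H⟩ := exists_hyp B hw.1 hg (Real.exp_pos s) (h.ind.ne_zero i)
        fun a => hχ a i
      obtain ⟨r', hr'⟩ := H1 _ (hW s).1 a ha1 (hy s a H)
      have h1 : ∀ᶠ s' in 𝓝 s, s' ∉ Bad w → W s' (c a₁ - algebraMap k E r') < 1 :=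
        Filter.Eventually.mono ((hop _).mem_nhds hr') fun s' h2 h3 =>
          cong_trans (H2 _ (hW s').1 (hall s' h3) a₁ ha a ha1) h2
      by_cases e : r' = r
      · subst e
        exact Or.inl h1
      · exact Or.inr (h1.mono fun s' h2 h3 h4 => e (alg_eq_of_lt (hW s').1.1 (h2 h3) h4))
    · obtain ⟨s, hs⟩ := eventually_atBot.1 hbot
      exact ⟨s - 1, trivial, Filter.Eventually.mono (Iio_mem_nhds (sub_one_lt s))
        fun s' h1 _ => hs s' (le_of_lt h1)⟩
  exact (hU (Set.mem_univ t)).self_of_nhds ht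

theorem conn [Finite ι] {w w' : Valuation E ℝ≥0} (hw : Tame k w) (hg : ∀ a, Good w (ρ a))
    (hw' : Tame k w') (hg' : ∀ a, Good w' (ρ a)) {r : k}
    (hr : w (c a₁ - algebraMap k E r) < 1) : w' (c a₁ - algebraMap k E r) < 1 := by
  classical
  have := Fintype.ofFinite ι
  obtain ⟨r', hr'⟩ := H1 w' hw' a₁ ha (hg' a₁)
  have h1 : ∀ S : Finset ι, ∃ u u' : Valuation E ℝ≥0, Tame k u ∧ (∀ a, Good u (ρ a)) ∧
      Tame k u' ∧ (∀ a, Good u' (ρ a)) ∧ u (c a₁ - algebraMap k E r) < 1 ∧
      u' (c a₁ - algebraMap k E r') < 1 ∧ ∀ x ∈ Algebra.adjoin k (y '' S), u x = u' x := fun S => by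
    induction S using Finset.induction_on with
    | empty =>
      refine ⟨w, w', hw, hg, hw', hg', hr, hr', fun x hx => ?_⟩
      rw [coe_empty, Set.image_empty, Algebra.adjoin_empty, Algebra.mem_bot] at hx
      obtain ⟨s, rfl⟩ := hx
      by_cases hs : s = 0
      · simp [hs]
      · rw [hw.1.eq_one s hs, hw'.1.eq_one s hs]
    | insert i S hi ih =>
      obtain ⟨u, u', hu, gu, hu', gu', h2, h3, h4⟩ := ih
      choose W hW using fun t : ℝ => step h hu i (y i) (Real.exp_pos t)
      choose W' hW' using fun t : ℝ => step h hu' i (y i) (Real.exp_pos t)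
      obtain ⟨t, ht, hb⟩ := (((bad_countable hu.2).union (bad_countable hu'.2)).dense_compl
        ℝ).inter_open_nonempty (Set.Ioi ((u (y i) : ℝ) + u' (y i))) isOpen_Ioi Set.nonempty_Ioi
      have h5 : (u (y i) : ℝ) + u' (y i) ≤ Real.exp t := by
        have := Real.add_one_le_exp t
        have : (u (y i) : ℝ) + u' (y i) < t := ht
        linarith
      obtain ⟨g1, g2⟩ := one_var B h hχ H1 H2 ha hu gu i hW fun e => hb (Or.inl e)
      obtain ⟨g3, g4⟩ := one_var B h hχ H1 H2 ha hu' gu' i hW' fun e => hb (Or.inr e)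
      refine ⟨W t, W' t, (hW t).1, g1, (hW' t).1, g3, g2 r h2, g4 r' h3, fun x hx => ?_⟩
      obtain ⟨P, rfl, hP⟩ := coeff_mem y (T := S) hi (by rwa [coe_insert] at hx)
      refine NNReal.eq ?_
      rw [(hW t).2, (hW' t).2, jm_shift, gauss_shift (Real.exp_pos t)
        ((le_add_of_nonneg_right (u' (y i)).2).trans h5), gauss_shift (Real.exp_pos t)
        ((le_add_of_nonneg_left (u (y i)).2).trans h5)]
      exact gauss_congr _ fun l => h4 _ (hP l)
  obtain ⟨u, u', hu, -, -, -, h2, h3, h4⟩ := h1 univ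
  rw [coe_univ, Set.image_univ, Algebra.adjoin_range_eq_range_aeval] at h4
  have h5 : ∀ x, u x = u' x := fun x => by
    obtain ⟨P, Q, -, rfl⟩ := h.frac x
    rw [map_div₀, map_div₀, h4 (MvPolynomial.aeval y P) ⟨P, rfl⟩,
      h4 (MvPolynomial.aeval y Q) ⟨Q, rfl⟩]
  rw [← h5] at h3
  rwa [alg_eq_of_lt hu.1 h2 h3]

end Pool.Agent.Work.MP_274868_ag.Cay
end

-- merged part: Pool.Agent.Work.MP_274868_ag.Cay.Core
section
/-! The counting argument. -/

namespace Pool.Agent.Work.MP_274868_ag.Cay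

open Finset Polynomial NNReal

variable {k E M A : Type*} [Field k] [Field E] [Field M] [Algebra k E] [Algebra k M] [CommGroup A]

variable [Algebra E M] [IsScalarTower k E M]

theorem good_down {Γ : Type*} [LinearOrderedCommGroupWithZero Γ] {ψ : E →ₐ[k] E} {φ : M →ₐ[k] M}
    (hc : ∀ x, φ (algebraMap E M x) = algebraMap E M (ψ x)) {v : Valuation M Γ} (h : Good v φ) :
    Good (v.comap (algebraMap E M)) ψ := fun x ω h1 h2 => h (algebraMap E M x) ω (by
  rw [hc, h1, Algebra.smul_def, Algebra.smul_def, map_mul, ← IsScalarTower.algebraMap_apply]) h2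

theorem tame_comap {N : Type*} [Field N] [Algebra k N] (f : N →ₐ[k] M) {v : Valuation M ℝ≥0}
    (hv : Tame k v) : Tame k (v.comap (f : N →+* M)) :=
  ⟨⟨fun r hr => (congrArg v (f.commutes r)).trans (hv.1.eq_one r hr)⟩,
    hv.2.mono (by rintro _ ⟨x, rfl⟩; exact ⟨_, rfl⟩)⟩

section
variable {L : Type*} [Field L] [Algebra E L] [Algebra k L] [IsScalarTower k E L]
  {w : Valuation E ℝ≥0} (hw : w.IsTrivialOn k) {O : ValuationSubring L}
  (hO : (O.valuation.comap (algebraMap E L)).IsEquiv w)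
include hw hO

theorem triv_ext : O.valuation.IsTrivialOn k := ⟨fun r hr => by
  rw [IsScalarTower.algebraMap_apply k E L]
  exact hO.eq_one_iff_eq_one.2 (hw.eq_one r hr)⟩

theorem triv_emb (f : M →ₐ[E] L) : (O.valuation.comap (f : M →+* L)).IsTrivialOn k :=
  ⟨fun r hr => (congrArg O.valuation ((f.restrictScalars k).commutes r)).trans
    ((triv_ext hw hO).eq_one r hr)⟩

variable [FiniteDimensional E M]

omit [Algebra k L] [IsScalarTower k E L] hw in
theorem good_emb {p : ℕ} (hp : p.Prime) (hd : Module.finrank E M < p) {ψ : E →ₐ[k] E}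
    {φ : M →ₐ[k] M} (hφ : φ ^ p = 1) (hc : ∀ x, φ (algebraMap E M x) = algebraMap E M (ψ x))
    (h : Good w ψ) (f : M →ₐ[E] L) : Good (O.valuation.comap (f : M →+* L)) φ := by
  refine good_up hp hd hφ hc (Good.of_isEquiv ?_ h)
  have : (O.valuation.comap (f : M →+* L)).comap (algebraMap E M) =
      O.valuation.comap (algebraMap E L) :=
    Valuation.ext fun x => congrArg O.valuation (f.commutes x)
  rwa [this]

theorem norm_res [IsAlgClosed L] [Algebra.IsSeparable E M] {θ : M} {s : (M →ₐ[E] L) → k}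
    (hs : ∀ f : M →ₐ[E] L, O.valuation (f (θ - algebraMap k M (s f))) < 1) (ω : k) :
    w (Algebra.norm E (θ - algebraMap k M ω) - algebraMap k E (∏ f, (s f - ω))) < 1 := by
  rw [← hO.lt_one_iff_lt_one, Valuation.comap_apply, map_sub, Algebra.norm_eq_prod_embeddings,
    ← IsScalarTower.algebraMap_apply, map_prod]
  refine cong_prod _ (fun f _ => ?_) fun f _ => val_alg_le (triv_ext hw hO) _
  have h1 : ∀ r, f (algebraMap k M r) = algebraMap k L r := (f.restrictScalars k).commutes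
  have := hs f
  rw [map_sub, h1] at this
  rwa [map_sub f, map_sub (algebraMap k L), h1, sub_sub_sub_cancel_right]

end

theorem core [CharZero k] [FiniteDimensional E M] {p : ℕ} {ε : k} (B : Base k A p ε)
    (hd : Module.finrank E M < p) {ρ : A →* (E →ₐ[k] E)} {σ : A →* (M →ₐ[k] M)}
    (hc : ∀ a x, σ a (algebraMap E M x) = algebraMap E M (ρ a x)) {ι : Type*} [Finite ι]
    {y : ι → E} (h : Gens k y) {χ : A → ι → k} (hχ : ∀ a l, ρ a (y l) = χ a l • y l) {θ : A → M}
    (hg : ∀ a ≠ 1, ∏ i ∈ range p, (σ a ^ i) (θ a) = 1)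
    (hθ : ∀ (O : ValuationSubring (AlgebraicClosure E)) (v : Valuation M O.ValueGroup),
      v.IsTrivialOn k → (∀ a, Good v (σ a)) → ∀ a ≠ 1, ∀ b ≠ 1, v (θ a - θ b) < 1)
    {Ω : Type*} [Field Ω] [Algebra k Ω] {φ : A → Ω →ₐ[k] Ω} {v : Valuation Ω ℝ≥0} (hv : Tame k v)
    (gv : ∀ a, Good v (φ a)) {τ : ℕ → M →ₐ[k] Ω} (t1 : ∀ n a x, τ n (σ a x) = φ a (τ n x))
    (t2 : ∀ n a, τ n (θ a) = ε ^ n • τ 0 (θ a)) : False := by
  have : CharZero E := charZero_of_injective_algebraMap (algebraMap k E).injective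
  let L := AlgebraicClosure E
  have := B.finite
  have : Nontrivial A := Finite.one_lt_card_iff_nontrivial.1 (B.prime.one_lt.trans B.card)
  obtain ⟨a₁, ha⟩ := exists_ne (1 : A)
  have hroot : ∀ (w : Valuation E ℝ≥0) (O : ValuationSubring L), w.IsTrivialOn k →
      (O.valuation.comap (algebraMap E L)).IsEquiv w → ∀ a ≠ 1, Good w (ρ a) →
      ∀ f : M →ₐ[E] L, ∃ i < p, O.valuation (f (θ a - algebraMap k M (ε ^ i))) < 1 :=
    fun w O hw hO a ha ga f => root_of_norm B.prime B.prim (B.pow σ a) (triv_emb hw hO f)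
      (good_emb hO B.prime hd (B.pow σ a) (hc a) ga f) (hg a ha)
  have H1 : ∀ (ω : k) (w : Valuation E ℝ≥0), Tame k w → ∀ a ≠ 1, Good w (ρ a) →
      ∃ r : k, w (Algebra.norm E (θ a - algebraMap k M ω) - algebraMap k E r) < 1 :=
    fun ω w hw a ha ga => by
      obtain ⟨O, hO⟩ := exists_ext (algebraMap E L) w
      choose i _ hi using hroot w O hw.1 hO a ha ga
      exact ⟨_, norm_res hw.1 hO hi ω⟩
  have H2 : ∀ (ω : k) (w : Valuation E ℝ≥0), Tame k w → (∀ a, Good w (ρ a)) → ∀ a ≠ 1, ∀ b ≠ 1,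
      w (Algebra.norm E (θ a - algebraMap k M ω) - Algebra.norm E (θ b - algebraMap k M ω)) < 1 :=
    fun ω w hw ga a ha b hb => by
      obtain ⟨O, hO⟩ := exists_ext (algebraMap E L) w
      choose i _ hi using hroot w O hw.1 hO b hb (ga b)
      refine cong_trans (norm_res hw.1 hO (fun f => ?_) ω)
        ((w.map_sub_swap _ _).trans_lt (norm_res hw.1 hO hi ω))
      exact cong_trans (v := O.valuation.comap (f : M →+* L)) (hθ O _ (triv_emb hw.1 hO f)
        (fun a => good_emb hO B.prime hd (B.pow σ a) (hc a) (ga a) f) a ha b hb) (hi f)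
  have tw : ∀ {u : Valuation M ℝ≥0}, Tame k u → Tame k (u.comap (algebraMap E M)) := fun hu =>
    tame_comap (IsScalarTower.toAlgHom k E M) hu
  have hu := fun n => tame_comap (τ n) hv
  have gu : ∀ n a, Good (v.comap (τ n : M →+* Ω)) (σ a) := fun n a x ω h1 h2 =>
    gv a (τ n x) ω (by rw [← t1, h1, map_smul]) h2
  obtain ⟨O, hO⟩ := exists_ext (algebraMap E L)
    ((v.comap (τ 0 : M →+* Ω)).comap (algebraMap E M))
  choose i _ hi using hroot _ O (tw (hu 0)).1 hO a₁ ha (good_down (hc a₁) (gu 0 a₁))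
  obtain ⟨i₀, h0, hi₀⟩ := root_of_norm B.prime B.prim (B.pow σ a₁) (hu 0).1 (gu 0 a₁) (hg a₁ ha)
  have hsur : ∀ n : Fin p, ∃ f, ε ^ i f = ε ^ (n : ℕ) := fun n => by
    set m := n + (p - i₀) with hm
    have h1 : v.comap (τ m : M →+* Ω) (θ a₁ - algebraMap k M (ε ^ (n : ℕ))) < 1 := by
      have h2 : τ m (θ a₁ - algebraMap k M (ε ^ (n : ℕ))) =
          ε ^ m • τ 0 (θ a₁ - algebraMap k M (ε ^ i₀)) := by
        rw [map_sub, map_sub, AlgHom.commutes, AlgHom.commutes, smul_sub, t2,
          Algebra.smul_def _ (algebraMap k Ω _), ← map_mul, ← pow_add, hm, add_assoc,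
          Nat.sub_add_cancel h0.le, pow_add ε n p, B.prim.pow_eq_one, mul_one]
      exact (congrArg v h2).trans_lt ((val_smul_le hv.1 _ _).trans_lt hi₀)
    let f₁ : M →ₐ[E] L := IsAlgClosed.lift
    obtain ⟨O', hO'⟩ := exists_ext (f₁ : M →+* L) (v.comap (τ m : M →+* Ω))
    have hO'' : (O'.valuation.comap (algebraMap E L)).IsEquiv
        ((v.comap (τ m : M →+* Ω)).comap (algebraMap E M)) := by
      have : (O'.valuation.comap (f₁ : M →+* L)).comap (algebraMap E M) =
          O'.valuation.comap (algebraMap E L) :=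
        Valuation.ext fun x => congrArg O'.valuation (f₁.commutes x)
      exact this ▸ hO'.comap _
    choose j _ hj using hroot _ O' (tw (hu m)).1 hO'' a₁ ha (good_down (hc a₁) (gu m a₁))
    have h2 := norm_res (tw (hu m)).1 hO'' hj (ε ^ (n : ℕ))
    rw [prod_eq_zero (mem_univ f₁) (sub_eq_zero.2 (alg_eq_of_lt (triv_emb (tw (hu m)).1 hO'' f₁)
      (hj f₁) (hO'.lt_one_iff_lt_one.2 h1)))] at h2
    have h3 := conn B h hχ (H1 _) (H2 _) ha (tw (hu m)) (fun a => good_down (hc a) (gu m a))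
      (tw (hu 0)) (fun a => good_down (hc a) (gu 0 a)) h2
    obtain ⟨f, -, hf⟩ := prod_eq_zero_iff.1
      (alg_eq_of_lt (tw (hu 0)).1 (norm_res (tw (hu 0)).1 hO hi _) h3)
    exact ⟨f, sub_eq_zero.1 hf⟩
  choose F hF using hsur
  have h1 := Fintype.card_le_of_injective F fun n m e => Fin.ext
    (B.prim.pow_inj n.2 m.2 (by rw [← hF, e, hF]))
  rw [Fintype.card_fin, AlgHom.card] at h1
  exact absurd hd h1.not_gt

end Pool.Agent.Work.MP_274868_ag.Cay
end

-- merged part: Pool.Agent.Work.MP_274868_ag.Cay.Tor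
section
/-! The counting argument for three cyclic orbits, in an ambient field. -/

namespace Pool.Agent.Work.MP_274868_ag.Cay

open Finset Polynomial NNReal

/-- the elementary abelian group of rank two -/
abbrev Gr (p : ℕ) : Type := Multiplicative (ZMod p × ZMod p)

/-- three linear forms with sum zero -/
def form {p : ℕ} (i : Fin 3) (a : Gr p) : ZMod p :=
  ![a.toAdd.1, a.toAdd.2, -a.toAdd.1 - a.toAdd.2] i

theorem form_mul {p : ℕ} (i : Fin 3) (a b : Gr p) : form i (a * b) = form i a + form i b := by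
  fin_cases i <;> simp [form]
  ring

theorem form_one {p : ℕ} (i : Fin 3) : form i (1 : Gr p) = 0 := by
  fin_cases i <;> simp [form]

theorem form_pow {p : ℕ} (i : Fin 3) (a : Gr p) (j : ℕ) : form i (a ^ j) = j * form i a := by
  induction j with
  | zero => simp [form_one]
  | succ j ih => rw [pow_succ, form_mul, ih, Nat.cast_succ, add_mul, one_mul]

theorem gr_pow {p : ℕ} (a : Gr p) : a ^ p = 1 := by
  apply Multiplicative.toAdd.injective
  ext <;> simp

theorem prod_shift {M : Type*} [CommMonoid M] {p : ℕ} [Fact p.Prime] (f : ZMod p → M) (x : ZMod p)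
    {l : ZMod p} (hl : l ≠ 0) : ∏ j ∈ range p, f (x + j * l) = ∏ y, f y := by
  rw [← ((Equiv.mulRight₀ l hl).trans (Equiv.addLeft x)).prod_comp f]
  refine prod_nbij (fun j : ℕ => (j : ZMod p)) (fun _ _ => mem_univ _) (fun a ha b hb e => ?_)
    (fun y _ => ⟨y.val, mem_coe.2 (mem_range.2 y.val_lt), ZMod.natCast_zmod_val y⟩) fun _ _ => rfl
  rw [← ZMod.val_natCast_of_lt (mem_range.1 ha), ← ZMod.val_natCast_of_lt (mem_range.1 hb)]
  exact congrArg ZMod.val e

variable {k Ω : Type*} [Field k] [Field Ω] [Algebra k Ω]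

theorem exists_restr {A N : Type*} [Monoid A] [Field N] [Algebra k N] (σ : A →* (Ω →ₐ[k] Ω))
    (f : N →ₐ[k] Ω) (h : ∀ a x, ∃ y, f y = σ a (f x)) :
    ∃ ρ : A →* (N →ₐ[k] N), ∀ a x, f (ρ a x) = σ a (f x) := by
  choose g hg using h
  have hf := f.injective
  refine ⟨⟨⟨fun a => ⟨⟨⟨⟨g a, hf ?_⟩, fun x y => hf ?_⟩, hf ?_, fun x y => hf ?_⟩,
    fun r => hf ?_⟩, AlgHom.ext fun x => hf ?_⟩, fun a b => AlgHom.ext fun x => hf ?_⟩, hg⟩
  · simp [hg]
  · simp [hg]
  · simp [hg]
  · simp [hg]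
  · simp [hg]
  · simp [hg]
  · show f (g (a * b) x) = f (g a (g b x))
    rw [hg, hg, hg, map_mul]
    rfl

theorem lin_sub [CharZero k] {A : Type*} [CommGroup A] [Finite A] {N : ℕ} (hN : 0 < N) {η : k}
    (hη : IsPrimitiveRoot η N) (hA : ∀ a : A, a ^ N = 1) {σ : A →* (Ω →ₐ[k] Ω)} {V : Type*}
    [Fintype V] {x : V → Ω} (hx : AlgebraicIndependent k x)
    (hst : ∀ a v, σ a (x v) ∈ Submodule.span k (Set.range x)) {E : IntermediateField k Ω}
    (hE : E = IntermediateField.adjoin k (Set.range x)) :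
    ∃ ρ : A →* (E →ₐ[k] E), (∀ a z, (ρ a z : Ω) = σ a z) ∧ ∃ (s : Set E) (χ : A → s → k),
      Finite s ∧ Gens k (Subtype.val : s → E) ∧ ∀ a (l : s), ρ a l = χ a l • l.1 := by
  have h1 : ∀ v, x v ∈ E := fun v => hE ▸ IntermediateField.subset_adjoin k _ ⟨v, rfl⟩
  have h2 : Submodule.span k (Set.range x) ≤ E.toSubalgebra.toSubmodule :=
    Submodule.span_le.2 (Set.range_subset_iff.2 h1)
  obtain ⟨ρ, hρ⟩ := exists_restr σ E.val fun a z => ⟨⟨σ a z, (hE.le.trans
    ((IntermediateField.adjoin_le_iff (T := E.comap (σ a))).2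
      (Set.range_subset_iff.2 fun v => h2 (hst a v)))) z.2⟩, rfl⟩
  let x' : V → E := fun v => ⟨x v, h1 v⟩
  have h3 : E.val '' Set.range x' = Set.range x := by
    rw [← Set.range_comp]
    rfl
  refine ⟨ρ, hρ, lin hN hη hA ρ (x := x') ?_ (fun a v => ?_) ?_⟩
  · apply IntermediateField.map_injective E.val
    rw [IntermediateField.adjoin_map, h3, ← hE, ← AlgHom.fieldRange_eq_map,
      IntermediateField.fieldRange_val]
  · refine (Submodule.apply_mem_span_image_iff_mem_span (f := E.val.toLinearMap)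
      E.val.injective).1 ?_
    rw [AlgHom.coe_toLinearMap, h3, hρ]
    exact hst a v
  · have := (AlgebraicIndependent.of_comp E.val (x := x') hx).lift_cardinalMk_le_trdeg
    rwa [Cardinal.mk_fintype, Cardinal.lift_natCast, Cardinal.nat_le_lift_iff] at this

theorem torus [CharZero k] {p : ℕ} [hp : Fact p.Prime] {ε : k} (hε : IsPrimitiveRoot ε p)
    {σ : Gr p →* (Ω →ₐ[k] Ω)} {V : Type*} [Fintype V] {x : V → Ω} (hx : AlgebraicIndependent k x)
    (hst : ∀ a v, σ a (x v) ∈ Submodule.span k (Set.range x)) {E : IntermediateField k Ω}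
    (hE : E = IntermediateField.adjoin k (Set.range x)) {M : IntermediateField E Ω}
    [FiniteDimensional E M] (hd : Module.finrank E M < p) (hM : ∀ a, ∀ z ∈ M, σ a z ∈ M)
    {R : Fin 3 → ZMod p → Ω} {T : Ω} (hR : ∀ i y, R i y ∈ M) (hT : T ∈ M) (r0 : ∀ i, R i 0 = 1)
    (r1 : ∀ a i y, σ a (R i y) = R i (y + form i a) / R i (form i a))
    (r2 : ∀ a, σ a T = T * ∏ i, R i (form i a)) (r3 : T ^ p * ∏ i, ∏ y, R i y = 1)
    {φ : Gr p → Ω →ₐ[k] Ω} {v : Valuation Ω ℝ≥0} (hv : Tame k v) (gv : ∀ a, Good v (φ a))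
    {τ : ℕ → Ω →ₐ[k] Ω} (t1 : ∀ n a, ∀ z ∈ M, τ n (σ a z) = φ a (τ n z))
    (t2 : ∀ n i, τ n (R i 1) = ε ^ n • τ 0 (R i 1)) : False := by
  have B : Base k (Gr p) p ε := ⟨hp.out, hε, gr_pow, by
    have := hp.out.one_lt
    rw [Nat.card_congr Multiplicative.toAdd, Nat.card_prod, Nat.card_zmod]
    nlinarith⟩
  obtain ⟨ρ, hρ, s, χ, hs, hg, hχ⟩ := lin_sub hp.out.pos hε gr_pow hx hst hE
  let f : M →ₐ[k] Ω := M.val.restrictScalars k
  obtain ⟨σ', hσ⟩ := exists_restr σ f fun a z => ⟨⟨σ a z, hM a z z.2⟩, rfl⟩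
  have hf : Function.Injective f := f.injective
  let R' : Fin 3 → ZMod p → M := fun i y => ⟨R i y, hR i y⟩
  let T' : M := ⟨T, hT⟩
  have hne : ∀ i, ∏ y, R i y ≠ 0 := fun i => prod_ne_zero_iff.1
    (right_ne_zero_of_mul_eq_one r3) i (mem_univ i)
  have hn : ∀ a i y, form i a ≠ 0 → ∏ j ∈ range p, (σ' a ^ j) (R' i y) = 1 := fun a i y h => by
    apply hf
    have h1 : ∀ j : ℕ, f ((σ' a ^ j) (R' i y)) =
        R i (y + j * form i a) / R i (0 + j * form i a) := fun j => by
      rw [← map_pow, hσ, zero_add, ← form_pow]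
      exact r1 _ i y
    rw [map_prod, prod_congr rfl fun j _ => h1 j, prod_div_distrib, prod_shift _ _ h,
      prod_shift _ _ h, div_self (hne i), map_one]
  refine core B hd (ρ := ρ) (σ := σ') (fun a z => f.injective ((hσ a _).trans (hρ a z).symm)) hg hχ
    (θ := fun a => if a.toAdd.1 = 0 then R' 1 1 else R' 0 1) (fun a ha => ?_)
    (fun O w hw gw a _ b _ => ?_) hv gv (τ := fun n => (τ n).comp f)
    (fun n a z => (congrArg (τ n) (hσ a z)).trans (t1 n a z z.2)) fun n a => ?_
  · split_ifs with h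
    · refine hn a 1 1 fun h2 => ha (Multiplicative.toAdd.injective (Prod.ext h h2))
    · exact hn a 0 1 h
  · have hu : ∀ i y, w (R' i y) = 1 := fun i y => by
      obtain ⟨c, hc⟩ : ∃ c : Gr p, form i c ≠ 0 := by
        fin_cases i
        exacts [⟨.ofAdd (1, 0), by simp [form]⟩, ⟨.ofAdd (0, 1), by simp [form]⟩,
          ⟨.ofAdd (1, 0), by simp [form]⟩]
      exact unit_of_norm hp.out hε (B.pow σ' c) hw (gw c) (hn c i y hc)
    have h1 : T' ^ p * ∏ i, ∏ y, R' i y = 1 := hf (by
      simp only [map_mul, map_pow, map_prod, map_one]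
      exact r3)
    have h2 : w T' = 1 := by
      have := congrArg w h1
      simp only [map_mul, map_pow, map_prod, hu, prod_const_one, mul_one, map_one] at this
      exact (pow_eq_one_iff_of_nonneg zero_le hp.out.ne_zero).1 this
    have h3 : ∀ c : Gr p, w (∏ i, R' i (form i c) - 1) < 1 := fun c => by
      have h4 : σ' c T' = T' * ∏ i, R' i (form i c) := hf (by
        simp only [hσ, map_mul, map_prod]
        exact r2 c)
      have := good_fix hp.out hε (B.pow σ' c) hw (gw c) h2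
      rwa [h4, ← mul_sub_one, map_mul, h2, one_mul] at this
    have h0 : ∀ i, R' i 0 = 1 := fun i => Subtype.ext (r0 i)
    have h5 := h3 (.ofAdd (1, 0))
    have h6 := h3 (.ofAdd (0, 1))
    simp only [Fin.prod_univ_three, form, toAdd_ofAdd, Matrix.cons_val_zero, Matrix.cons_val_one,
      Matrix.cons_val, h0, mul_one, one_mul, sub_zero, neg_zero, zero_sub] at h5 h6
    have h7 := w.map_sub_lt h5 h6
    rw [sub_sub_sub_cancel_right, ← sub_mul, map_mul, hu, mul_one] at h7
    split_ifs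
    · simp
    · rwa [w.map_sub_swap]
    · exact h7
    · simp
  · split_ifs
    exacts [t2 n 1, t2 n 0]

end Pool.Agent.Work.MP_274868_ag.Cay
end

-- merged part: Pool.Agent.Work.MP_274868_ag.Cay.Mono
section
/-! Monomial substitutions and the finite extension. -/

namespace Pool.Agent.Work.MP_274868_ag.Cay

open Matrix Finset NNReal

variable {k : Type*} [Field k]

theorem exists_field [CharZero k] {K Ω : Type*} [Field K] [Field Ω] [Algebra k K] [Algebra k Ω]
    (i : K →ₐ[k] Ω) {E₀ K₀ : IntermediateField k K} (h : E₀ ≤ K₀)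
    [FiniteDimensional E₀ (IntermediateField.extendScalars h)] {E : IntermediateField k Ω}
    (hE : ∀ x ∈ E₀, i x ∈ E) : ∃ M : IntermediateField E Ω, FiniteDimensional E M ∧
      Module.finrank E M ≤ Module.finrank E₀ (IntermediateField.extendScalars h) ∧
      (∀ x ∈ K₀, i x ∈ M) ∧
      ∀ L : IntermediateField k Ω, E ≤ L → (∀ x ∈ K₀, i x ∈ L) → ∀ z ∈ M, z ∈ L := by
  have : CharZero E₀ := charZero_of_injective_algebraMap (algebraMap k E₀).injective
  obtain ⟨β, hβ⟩ := Field.exists_primitive_element E₀ (IntermediateField.extendScalars h)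
  let j : E₀ →+* E := ((i : K →+* Ω).comp E₀.val.toRingHom).codRestrict E fun x => hE x x.2
  let g : IntermediateField.extendScalars h →+* Ω :=
    (i : K →+* Ω).comp (IntermediateField.extendScalars h).val.toRingHom
  have hI : IsIntegral E₀ β := Algebra.IsIntegral.isIntegral β
  have h1 : Polynomial.aeval (g β) ((minpoly E₀ β).map j) = 0 := by
    have := Polynomial.hom_eval₂ (minpoly E₀ β) (algebraMap E₀ _) g β
    rw [← Polynomial.aeval_def, minpoly.aeval, map_zero] at this
    rw [Polynomial.aeval_def, Polynomial.eval₂_map]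
    exact this.symm
  have h2 := (minpoly.monic hI).map j
  have hI' : IsIntegral E (g β) := ⟨_, h2, h1⟩
  refine ⟨IntermediateField.adjoin E {g β}, IntermediateField.adjoin.finiteDimensional hI', ?_,
    fun x hx => ?_, fun L h3 h4 z hz => ?_⟩
  · rw [IntermediateField.adjoin.finrank hI', ← IntermediateField.finrank_top', ← hβ,
      IntermediateField.adjoin.finrank hI]
    exact (Polynomial.natDegree_le_natDegree (minpoly.min E _ h2 h1)).trans
      Polynomial.natDegree_map_le
  · have h3 : ∀ z ∈ IntermediateField.adjoin E₀ {β}, g z ∈ IntermediateField.adjoin E {g β} :=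
      fun z hz => by
        induction hz using IntermediateField.adjoin_induction with
        | mem x hx => exact hx ▸ IntermediateField.mem_adjoin_simple_self E _
        | algebraMap x => exact IntermediateField.algebraMap_mem _ (j x)
        | add x y _ _ h1 h2 => exact (map_add g x y).symm ▸ add_mem h1 h2
        | inv x _ h1 => exact (map_inv₀ g x).symm ▸ inv_mem h1
        | mul x y _ _ h1 h2 => exact (map_mul g x y).symm ▸ mul_mem h1 h2
    exact h3 ⟨x, hx⟩ (hβ.ge IntermediateField.mem_top)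
  · exact (IntermediateField.adjoin_le_iff (T := IntermediateField.extendScalars h3)).2
      (Set.singleton_subset_iff.2 (h4 _ β.2)) hz

variable {n : Type}

/-- permute the columns and the vector, and scale the two further variables -/
noncomputable def mono (π : n → n) (c : Fin 2 → k) : Vr n → Om k n :=
  Sum.elim (Sum.elim (fun q => var k (.inl (.inl (q.1, π q.2)))) fun l => var k (.inl (.inr (π l))))
    fun i => c i • var k (.inr i)

/-- scale the vector -/
noncomputable def tw (ν : n → Om k n) : Vr n → Om k n :=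
  Sum.elim (Sum.elim (fun q => var k (.inl (.inl q))) fun l => ν l * var k (.inl (.inr l)))
    fun i => var k (.inr i)

variable [Fintype n]

theorem prod_perm {G M : Type*} [Group G] [CommMonoid M] {π : G → n → n} (h1 : ∀ l, π 1 l = l)
    (h2 : ∀ g h l, π (g * h) l = π g (π h l)) (g : G) (f : n → M) : ∏ l, f (π g l) = ∏ l, f l :=
  Equiv.prod_comp ⟨π g, π g⁻¹, fun l => by rw [← h2, inv_mul_cancel, h1],
    fun l => by rw [← h2, mul_inv_cancel, h1]⟩ f

theorem exists_mono {G : Type*} [Group G] {π : G → n → n} (h1 : ∀ l, π 1 l = l)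
    (h2 : ∀ g h l, π (g * h) l = π g (π h l)) {c : G → Fin 2 → k} (h3 : ∀ i, c 1 i = 1)
    (h4 : ∀ g h i, c (g * h) i = c g i * c h i) :
    ∃ ρ : G →* (Om k n →ₐ[k] Om k n), ∀ g w, ρ g (var k w) = mono (π g) (c g) w := by
  have h5 : ∀ g l, π g (π g⁻¹ l) = l := fun g l => by rw [← h2, mul_inv_cancel, h1]
  have h6 : ∀ g, ∃ f : Om k n →ₐ[k] Om k n, ∀ w, f (var k w) = mono (π g) (c g) w := fun g => by
    have h7 := fun w => IntermediateField.subset_adjoin k _ (Set.mem_range_self
      (f := mono (π g) (c g)) w)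
    refine exists_sub ?_
    rintro ((⟨i, j⟩ | l) | l)
    · simpa [mono, h5] using h7 (.inl (.inl (i, π g⁻¹ j)))
    · simpa [mono, h5] using h7 (.inl (.inr (π g⁻¹ l)))
    · have := IntermediateField.smul_mem _ (h7 (.inr l)) (x := c g⁻¹ l)
      simpa [mono, smul_smul, ← h4, h3] using this
  choose f hf using h6
  refine ⟨⟨⟨f, om_ext ?_⟩, fun g h => om_ext ?_⟩, hf⟩
  · rintro ((⟨i, j⟩ | l) | l) <;> simp [hf, mono, h1, h3]
  · rintro ((⟨i, j⟩ | l) | l) <;> simp [hf, mono, h2, h4, smul_smul, mul_comm]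

theorem exists_tw {ν : n → Om k n} (h0 : ∀ l, ν l ≠ 0)
    (h1 : ∀ L : IntermediateField k (Om k n), (∀ i, var k (.inr i) ∈ L) → ∀ l, ν l ∈ L) :
    ∃ f : Om k n →ₐ[k] Om k n, ∀ w, f (var k w) = tw ν w := by
  have h7 := fun w => IntermediateField.subset_adjoin k _ (Set.mem_range_self (f := tw ν) w)
  refine exists_sub ?_
  rintro ((q | l) | l)
  · exact h7 (.inl (.inl q))
  · have := div_mem (h7 (.inl (.inr l))) (h1 _ (fun i => h7 (.inr i)) l)
    rwa [show tw ν (.inl (.inr l)) = ν l * var k (.inl (.inr l)) from rfl,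
      mul_div_cancel_left₀ _ (h0 l)] at this
  · exact h7 (.inr l)

theorem exists_good_mono [CharZero k] {G : Type*} [CommGroup G] [Finite G] {N : ℕ} (hN : 0 < N)
    {η : k} (hη : IsPrimitiveRoot η N) (hG : ∀ g : G, g ^ N = 1) {π : G → n → n}
    {c : G → Fin 2 → k} {ρ : G →* (Om k n →ₐ[k] Om k n)}
    (hρ : ∀ g w, ρ g (var k w) = mono (π g) (c g) w) :
    ∃ v : Valuation (Om k n) ℝ≥0, Tame k v ∧ ∀ g, Good v (ρ g) := by
  obtain ⟨s, χ, _, h1, h2⟩ := lin hN hη hG ρ (x := var k)
    (var_gen fun w => IntermediateField.subset_adjoin k _ ⟨w, rfl⟩) (fun g w => by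
      rw [hρ]
      rcases w with (q | l) | l
      · exact Submodule.subset_span ⟨_, rfl⟩
      · exact Submodule.subset_span ⟨_, rfl⟩
      · exact Submodule.smul_mem _ _ (Submodule.subset_span ⟨_, rfl⟩)) (by
      have := (var_ind (k := k) (n := n)).lift_cardinalMk_le_trdeg
      rwa [Cardinal.mk_fintype, Cardinal.lift_natCast, Cardinal.nat_le_lift_iff] at this)
  exact exists_good h1 h2 hN fun g => by rw [← map_pow, hG, map_one]

variable [DecidableEq n]

theorem map_dg_perm {f : Om k n →ₐ[k] Om k n} {π : n → n} (hπ : Function.Surjective π)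
    (h1 : ∀ a b, f (pm (var k) a b) = pm (var k) a (π b)) {t : n → Om k n}
    (h2 : ∀ l, f (t l) = t (π l)) : (dg (pm (var k)) t).map f = dg (pm (var k)) t := by
  refine eq_dg unit_pm (Matrix.ext fun a b => ?_)
  obtain ⟨b, rfl⟩ := hπ b
  have := congrArg f (congrFun (congrFun (dg_mul (unit_pm (k := k)) t) a) b)
  simpa [Matrix.mul_apply, h1, h2, diagonal] using this

theorem fiber_prod {B M : Type*} [Fintype B] [DecidableEq B] [CommMonoid M] {κ : B → Fin 3}
    {b : Fin 3 → B} (hb : ∀ i, κ (b i) = i) (F : Fin 3 → M) (i : Fin 3) :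
    ∏ c with κ c = i, (if c = b (κ c) then F (κ c) else 1) = F i := by
  rw [prod_congr rfl (g := fun c => if c = b i then F i else 1) fun c hc => by
    rw [(mem_filter.1 hc).2], prod_ite_eq', if_pos (by simp [hb])]

end Pool.Agent.Work.MP_274868_ag.Cay
end

-- merged part: Pool.Agent.Work.MP_274868_ag.Cay.Red
section
/-! The lower bound for the degree. -/

namespace Pool.Agent.Work.MP_274868_ag.Cay

open Matrix Finset NNReal

variable {k : Type*} [Field k] {n B : Type} {p : ℕ}

/-- the permutation action on the indices -/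
def sh (e : n ≃ ZMod p × B) (κ : B → Fin 3) (a : Gr p) (l : n) : n :=
  e.symm ((e l).1 + form (κ (e l).2) a, (e l).2)

theorem sh_one (e : n ≃ ZMod p × B) (κ : B → Fin 3) (l : n) : sh e κ 1 l = l := by
  simp [sh, form_one]

theorem sh_mul (e : n ≃ ZMod p × B) (κ : B → Fin 3) (a b : Gr p) (l : n) :
    sh e κ (a * b) l = sh e κ a (sh e κ b l) := by
  simp [sh, form_mul, add_comm, add_left_comm]

theorem sh_surj (e : n ≃ ZMod p × B) (κ : B → Fin 3) (a : Gr p) :
    Function.Surjective (sh e κ a) := fun l =>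
  ⟨sh e κ a⁻¹ l, by rw [← sh_mul, mul_inv_cancel, sh_one]⟩

/-- three elements with product one -/
noncomputable def zf (k : Type*) [Field k] (n : Type) : Fin 3 → Om k n :=
  ![var k (.inr 0), var k (.inr 1), (var k (.inr 0) * var k (.inr 1))⁻¹]

theorem zf_ne (i : Fin 3) : zf k n i ≠ 0 := by
  fin_cases i <;> simp [zf, var_ne]

variable [Fintype n] [DecidableEq n] [Fintype B] [DecidableEq B]

omit [DecidableEq n] in
theorem map_tv {f : Om k n →ₐ[k] Om k n} {z : Vr n → Om k n} (h : ∀ w, f (var k w) = z w) (l : n) :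
    f (tv (var k) l) = tv z l := by
  simp [tv, uv, h]

omit [DecidableEq n] in
theorem exists_twist [CharZero k] [IsAlgClosed k] [Nonempty n] [hp : Fact p.Prime]
    (e : n ≃ ZMod p × B) {κ : B → Fin 3} {b : Fin 3 → B} (hb : ∀ i, κ (b i) = i) :
    ∃ (ε : k) (φ : Gr p → Om k n →ₐ[k] Om k n) (v : Valuation (Om k n) ℝ≥0)
      (τ : ℕ → Om k n →ₐ[k] Om k n) (μ : n → Om k n) (c : k), IsPrimitiveRoot ε p ∧ Tame k v ∧
      (∀ a, Good v (φ a)) ∧ (∀ a i j, φ a (pm (var k) i j) = pm (var k) i (sh e κ a j)) ∧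
      (∀ a l, φ a (uv (var k) l) = uv (var k) (sh e κ a l)) ∧
      (∀ a l, φ a (μ l) = μ (sh e κ a l)) ∧ (∀ m i j, τ m (pm (var k) i j) = pm (var k) i j) ∧
      (∀ m, τ m (∏ l, uv (var k) l) = c ^ m • ∏ l, uv (var k) l) ∧
      (∀ m l, τ m (tv (var k) l) = μ l ^ m * tv (var k) l) ∧
      ∀ i, ∏ c with κ c = i, μ (e.symm (1, c)) / μ (e.symm (0, c)) = algebraMap k _ ε := by
  set N := Fintype.card n with hN
  have hN0 : 0 < N := Fintype.card_pos
  have hM : 0 < N * p := mul_pos hN0 hp.out.pos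
  have : NeZero (N * p) := ⟨hM.ne'⟩
  have : NeZero ((N * p : ℕ) : k) := ⟨Nat.cast_ne_zero.2 hM.ne'⟩
  obtain ⟨η, hη⟩ := HasEnoughRootsOfUnity.exists_primitiveRoot k (N * p)
  have hε := hη.pow hM rfl
  have hη0 : η ≠ 0 := hη.ne_zero hM.ne'
  let ψ := AddChar.zmodChar (N * p) hη.pow_eq_one
  let χ := AddChar.zmodChar p hε.pow_eq_one
  let pr : Gr (N * p) → Gr p := fun g => .ofAdd (ZMod.castHom (dvd_mul_left p N) (ZMod p) g.toAdd.1,
    ZMod.castHom (dvd_mul_left p N) (ZMod p) g.toAdd.2)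
  obtain ⟨ρ, hρ⟩ := exists_mono (k := k) (π := fun g => sh e κ (pr g))
    (c := fun g => ![ψ g.toAdd.1, ψ g.toAdd.2])
    (fun l => by
      simp only [pr, toAdd_one, Prod.fst_zero, Prod.snd_zero, map_zero]
      exact sh_one e κ l)
    (fun g h l => by
      rw [← sh_mul]
      simp only [pr, toAdd_mul, Prod.fst_add, Prod.snd_add, map_add]
      rfl)
    (fun i => by fin_cases i <;> simp) fun g h i => by
      fin_cases i <;> simp [AddChar.map_add_eq_mul]
  obtain ⟨v, hv, gv⟩ := exists_good_mono hM hη gr_pow hρ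
  let up : Gr p → Gr (N * p) := fun a => .ofAdd (a.toAdd.1.val, a.toAdd.2.val)
  have hup : ∀ a, pr (up a) = a := fun a => by
    simp only [pr, up, toAdd_ofAdd, map_natCast, ZMod.natCast_zmod_val]
    rfl
  let ν : n → Om k n := fun l => if (e l).2 = b (κ (e l).2) then
    algebraMap k _ (η ^ (e l).1.val) * zf k n (κ (e l).2) else 1
  have hν : ∀ l, ν l ≠ 0 := fun l => by
    simp only [ν]
    split_ifs
    · exact mul_ne_zero ((_root_.map_ne_zero _).2 (pow_ne_zero _ hη0)) (zf_ne _)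
    · exact one_ne_zero
  choose τ hτ using fun m : ℕ => exists_tw (ν := fun l => ν l ^ m) (fun l => pow_ne_zero _ (hν l))
    fun L hL l => pow_mem (by
      simp only [ν]
      split_ifs
      · refine mul_mem (L.algebraMap_mem _) ?_
        generalize κ (e l).2 = i
        fin_cases i
        exacts [hL 0, hL 1, inv_mem (mul_mem (hL 0) (hL 1))]
      · exact one_mem _) m
  obtain ⟨c, hc⟩ : ∃ c : k, ∏ l, ν l = algebraMap k _ c := by
    refine ⟨∏ x : ZMod p, (η ^ x.val) ^ 3, ?_⟩
    rw [← e.symm.prod_comp, Fintype.prod_prod_type, map_prod]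
    refine prod_congr rfl fun x _ => ?_
    simp only [ν, Equiv.apply_symm_apply]
    rw [← prod_fiberwise univ κ, prod_congr rfl fun i _ => fiber_prod hb
      (fun i => algebraMap k (Om k n) (η ^ x.val) * zf k n i) i, prod_mul_distrib, prod_const,
      Fin.prod_univ_three]
    have h0 := var_ne (k := k) (n := n) (.inr 0)
    have h1 := var_ne (k := k) (n := n) (.inr 1)
    rw [show zf k n 0 * zf k n 1 * zf k n 2 = 1 from mul_inv_cancel₀ (mul_ne_zero h0 h1)]
    simp
  have hz : ∀ a i, ρ (up a) (zf k n i ^ N) = algebraMap k _ (χ (form i a)) * zf k n i ^ N := by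
    have h2 : ∀ (x : ZMod p) (z : Om k n),
        (ψ x.val • z) ^ N = algebraMap k _ (χ x) * z ^ N := fun x z => by
      rw [AddChar.zmodChar_apply', Algebra.smul_def, mul_pow, ← map_pow, pow_right_comm]
      rfl
    have h0 : ∀ a : Gr p, ρ (up a) (var k (.inr 0) ^ N) =
        algebraMap k _ (χ a.toAdd.1) * var k (.inr 0) ^ N := fun a => by
      rw [map_pow, hρ]
      exact h2 _ _
    have h1 : ∀ a : Gr p, ρ (up a) (var k (.inr 1) ^ N) =
        algebraMap k _ (χ a.toAdd.2) * var k (.inr 1) ^ N := fun a => by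
      rw [map_pow, hρ]
      exact h2 _ _
    intro a i
    fin_cases i
    · exact h0 a
    · exact h1 a
    · show ρ (up a) ((_ * _)⁻¹ ^ N) = algebraMap k _ (χ (-a.toAdd.1 - a.toAdd.2)) * (_ * _)⁻¹ ^ N
      rw [inv_pow, mul_pow, map_inv₀, map_mul, h0, h1, ← neg_add', AddChar.map_neg_eq_inv,
        AddChar.map_add_eq_mul, map_inv₀, map_mul, mul_mul_mul_comm, mul_inv]
  have hνN : ∀ l, ν l ^ N = if (e l).2 = b (κ (e l).2) then
      algebraMap k _ (χ (e l).1) * zf k n (κ (e l).2) ^ N else 1 := fun l => by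
    simp only [ν]
    split_ifs
    · rw [mul_pow, ← map_pow, pow_right_comm]
      rfl
    · exact one_pow _
  have hd : ∀ m, ∏ l, uv (tw fun l => ν l ^ m) l = c ^ m • ∏ l, uv (var k) l := fun m => by
    rw [Algebra.smul_def, map_pow, ← hc, ← prod_pow, ← prod_mul_distrib]
    rfl
  refine ⟨η ^ N, fun a => ρ (up a), v, τ, fun l => ν l ^ N / algebraMap k _ c, c, hε, hv,
    fun a => gv _, fun a i j => ?_, fun a l => ?_, fun a l => ?_, fun m i j => hτ m _,
    fun m => ?_, fun m l => ?_, fun i => ?_⟩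
  · exact (hρ _ _).trans (by rw [hup]; rfl)
  · exact (hρ _ _).trans (by rw [hup]; rfl)
  · dsimp only
    rw [map_div₀, AlgHom.commutes, hνN, hνN]
    simp only [sh, Equiv.apply_symm_apply]
    split_ifs
    · rw [map_mul, AlgHom.commutes, hz, AddChar.map_add_eq_mul, map_mul, mul_assoc]
    · rw [map_one]
  · rw [← hd, map_prod]
    exact prod_congr rfl fun l _ => hτ m _
  · rw [map_tv (hτ m), tv, hd, tv, Algebra.smul_def, map_pow, div_pow, div_mul_div_comm,
      pow_right_comm, ← mul_pow]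
    rfl
  · have hc0 : algebraMap k (Om k n) c ≠ 0 := hc ▸ prod_ne_zero_iff.2 fun l _ => hν l
    refine Eq.trans (prod_congr rfl fun x _ => ?_) (fiber_prod hb (fun _ => algebraMap k _ (η ^ N)) i)
    rw [div_div_div_cancel_right₀ hc0, hνN, hνN]
    simp only [Equiv.apply_symm_apply]
    split_ifs
    · rw [mul_div_mul_right _ _ (pow_ne_zero _ (zf_ne _)), AddChar.map_zero_eq_one,
        map_one (algebraMap k _), div_one, AddChar.zmodChar_apply, ZMod.val_one, pow_one]
    · exact div_one _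

end Pool.Agent.Work.MP_274868_ag.Cay
end

-- merged part: Pool.Agent.Work.MP_274868_ag.Cay.Main
section
/-! The lower bound for the degree. -/

namespace Pool.Agent.Work.MP_274868_ag.Cay

open Matrix Finset NNReal

variable {k : Type*} [Field k] {n B : Type} {p : ℕ} [Fintype n] [DecidableEq n] [Fintype B]
  [DecidableEq B]

theorem no_small [CharZero k] [IsAlgClosed k] [Nonempty n] [hp : Fact p.Prime]
    (e : n ≃ ZMod p × B) {κ : B → Fin 3} {b : Fin 3 → B} (hb : ∀ i, κ (b i) = i) {d : ℕ}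
    (hd0 : 0 < d) (hd : d ∣ Fintype.card B) {K₀ : IntermediateField k (Fn k n)} {x₀ : Fn k n}
    (hx₀ : x₀ ≠ 0) (k1 : ∀ a c, gen k n a c / x₀ ∈ K₀) (k2 : x₀ ^ d ∈ K₀)
    {Y : Matrix n n (Fn k n)} (hY : IsEquivariant Y) (hle : entries k Y ≤ K₀)
    [FiniteDimensional (entries k Y) (IntermediateField.extendScalars hle)]
    (hlt : Module.finrank (entries k Y) (IntermediateField.extendScalars hle) < p) : False := by
  obtain ⟨i, hi⟩ := exists_emb (k := k) (n := n)
  obtain ⟨y, hy, hy0⟩ := exists_eigenvalues hi hY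
  obtain ⟨ε, φ, v, τ, μ, c, hε, hv, gv, f1, f2, f3, t1, t2, t3, t4⟩ := exists_twist (k := k) e hb
  obtain ⟨σ, hσ⟩ := exists_mono (k := k) (sh_one e κ) (sh_mul e κ) (c := fun _ _ => 1)
    (fun _ => rfl) fun _ _ _ => (mul_one _).symm
  have uP : IsUnit (pm (var k : Vr n → Om k n)).det := unit_pm
  set P := pm (var k : Vr n → Om k n) with hP
  set t := tv (var k : Vr n → Om k n) with ht
  set δ := ∏ l, uv (var k : Vr n → Om k n) l with hδ
  have hδ0 : δ ≠ 0 := prod_ne_zero_iff.2 fun l _ => var_ne _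
  have ht0 : ∀ l, t l ≠ 0 := fun l => div_ne_zero (pow_ne_zero _ (var_ne _)) hδ0
  have s1 : ∀ a i j, σ a (P i j) = P i (sh e κ a j) := fun a i j => hσ a _
  have fd : ∀ (f : Om k n →ₐ[k] Om k n) a, (∀ l, f (uv (var k) l) = uv (var k) (sh e κ a l)) →
      f δ = δ ∧ ∀ l, f (t l) = t (sh e κ a l) := fun f a h => by
    have h1 : f δ = δ := by
      rw [hδ, map_prod, prod_congr rfl fun l _ => h l, prod_perm (sh_one e κ) (sh_mul e κ)]
    exact ⟨h1, fun l => by rw [ht, tv, map_div₀, map_pow, h, ← hδ, h1]; rfl⟩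
  have s2 := fun a => fd (σ a) a fun l => hσ a _
  have s3 : ∀ a x, σ a (i x) = i x := fun a => DFunLike.congr_fun (fn_ext (f := (σ a).comp i) (by
    rw [AlgHom.coe_comp, ← Matrix.map_map, hi]
    exact map_dg_perm (sh_surj e κ a) (s1 a) (s2 a).2))
  have s4 : ∀ a l, σ a (y l) = y (sh e κ a l) := fun a l => by
    have h1 := congrArg (σ a) (congrFun (congrFun hy l) l)
    have h2 := congrFun (congrFun hy l) (sh e κ a l)
    rw [mul_diagonal] at h1 h2
    simp only [Matrix.mul_apply, map_sum, map_mul, map_apply, s1, s3] at h1 h2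
    exact mul_left_cancel₀ (var_ne _) (h1.symm.trans h2)
  have u3 : ∀ m a x, φ a (τ m (i x)) = τ m (i x) := fun m a => DFunLike.congr_fun
    (fn_ext (f := (φ a).comp ((τ m).comp i)) (g := (τ m).comp i) (by
      have h1 : (gen k n).map ((τ m).comp i) = dg P fun l => μ l ^ m * t l := by
        rw [AlgHom.coe_comp, ← Matrix.map_map, hi]
        refine (dg_map uP (τ m : Om k n →+* Om k n) _).trans ?_
        congr 1
        exacts [Matrix.ext (t1 m), funext (t3 m)]
      rw [AlgHom.coe_comp, ← Matrix.map_map, h1]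
      exact map_dg_perm (sh_surj e κ a) (f1 a) fun l => by
        rw [map_mul, map_pow, f3, (fd _ a (f2 a)).2]))
  obtain ⟨z⟩ := ‹Nonempty n›
  let x : (n × n) ⊕ n → Om k n := Sum.elim (fun q => P q.1 q.2) fun l => if l = z then δ else y l
  have hys : ∀ l, y l ∈ Submodule.span k (Set.range x) := fun l => by
    have h1 : ∀ l ≠ z, y l ∈ Submodule.span k (Set.range x) := fun l hl =>
      Submodule.subset_span ⟨.inr l, if_neg hl⟩
    by_cases hl : l = z
    · rw [← add_sum_erase _ _ (mem_univ z), add_eq_zero_iff_eq_neg] at hy0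
      rw [hl, hy0]
      exact neg_mem (Submodule.sum_mem _ fun l hl => h1 l (ne_of_mem_erase hl))
    · exact h1 l hl
  have hδs : δ ∈ Submodule.span k (Set.range x) := Submodule.subset_span ⟨.inr z, if_pos rfl⟩
  obtain ⟨E, hE⟩ : ∃ E, E = IntermediateField.adjoin k (Set.range x) := ⟨_, rfl⟩
  have hsp : ∀ w ∈ Submodule.span k (Set.range x), w ∈ E :=
    (Submodule.span_le (p := E.toSubalgebra.toSubmodule)).2
      (hE ▸ IntermediateField.subset_adjoin k _)
  have hPE : ∀ a c, P a c ∈ E := fun a c => hsp _ (Submodule.subset_span ⟨.inl (a, c), rfl⟩)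
  have hdi : ∀ (L : IntermediateField k (Om k n)) (A : Matrix n n (Om k n)) (s : n → Om k n),
      (∀ a c, P a c ∈ L) → (∀ a c, A a c ∈ L) → A * P = P * diagonal s → ∀ l, s l ∈ L :=
    fun L A s h1 h2 h3 l => by
      have := mul_mem_mat (inv_mem_mat uP h1) (mul_mem_mat h2 h1) l l
      rwa [h3, nonsing_inv_mul_cancel_left _ _ uP, diagonal_apply_eq] at this
  obtain ⟨M, m0, m1, m2, m3⟩ := exists_field i hle (E := E)
    ((IntermediateField.adjoin_le_iff (T := E.comap i)).2 (Set.range_subset_iff.2 fun q => by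
      show (Y.map i) q.1 q.2 ∈ E
      rw [eq_dg uP hy]
      refine mul_mem_mat (mul_mem_mat hPE fun a c => ?_) (inv_mem_mat uP hPE) _ _
      rw [diagonal_apply]
      split_ifs
      exacts [hsp _ (hys a), zero_mem _]))
  have m4 : ∀ L : IntermediateField k (Om k n), (∀ a c, P a c ∈ L) → δ ∈ L →
      (∀ w ∈ K₀, i w ∈ L) → ∀ w ∈ M, w ∈ L := fun L h1 h2 h3 => m3 L (by
    rw [hE, IntermediateField.adjoin_le_iff, Set.range_subset_iff]
    rintro (q | l)
    · exact h1 _ _
    · show (if l = z then δ else y l) ∈ L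
      split_ifs
      exacts [h2, hdi L _ _ h1 (fun a c => h3 _ (hle (IntermediateField.subset_adjoin k _
        ⟨(a, c), rfl⟩))) hy l]) h3
  have hEM : ∀ w ∈ E, w ∈ M := fun w hw => M.algebraMap_mem ⟨w, hw⟩
  have hi0 : i x₀ ≠ 0 := (_root_.map_ne_zero i).2 hx₀
  have hw : ∀ l, t l / i x₀ ∈ M := hdi (M.restrictScalars k)
    (of fun a c => i (gen k n a c / x₀)) _ (fun a c => hEM _ (hPE a c))
    (fun a c => m2 _ (k1 a c)) (Matrix.ext fun a c => by
      have := congrFun (congrFun (dg_mul uP t) a) c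
      rw [← hi, mul_diagonal] at this
      simp only [Matrix.mul_apply, map_apply] at this
      rw [mul_diagonal, ← mul_div_assoc, ← this, sum_div]
      simp [Matrix.mul_apply, div_mul_eq_mul_div])
  have hxd : i x₀ ^ d ∈ M := map_pow i x₀ d ▸ m2 _ k2
  have hx : AlgebraicIndependent k x := by
    have h1 : E ≤ IntermediateField.adjoin k (Set.range (Sum.elim x fun j => var k (.inr j))) :=
      hE.le.trans (IntermediateField.adjoin.mono _ _ _ (Set.range_subset_iff.2 fun w =>
        ⟨.inl w, rfl⟩))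
    suffices h : AlgebraicIndependent k (Sum.elim x fun j : Fin 2 => var k (.inr j)) by
      have := h.comp _ Sum.inl_injective
      rwa [Sum.elim_comp_inl] at this
    refine indep_of_alg ?_
    rintro ((q | l) | j)
    · exact isAlgebraic_algebraMap (⟨_, h1 (hPE q.1 q.2)⟩ : IntermediateField.adjoin k _)
    · refine IsAlgebraic.tower_top_of_subalgebra_le (A := E.toSubalgebra) h1
        (IsAlgebraic.of_pow (mul_pos (Fintype.card_pos (α := n)) hd0) ?_)
      have h2 : uv (var k) l ^ (Fintype.card n * d) ∈ M := by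
        have := mul_mem (mul_mem (pow_mem (hw l) d) hxd) (pow_mem (hEM _ (hsp _ hδs)) d)
        rwa [← mul_pow, ← mul_pow, div_mul_cancel₀ _ hi0, ht, tv, div_mul_cancel₀ _ hδ0,
          ← pow_mul] at this
      exact IntermediateField.isAlgebraic_iff.1
        (Algebra.IsAlgebraic.isAlgebraic (R := E) (⟨_, h2⟩ : M))
    · exact isAlgebraic_algebraMap (⟨_, IntermediateField.subset_adjoin k _
        (Set.mem_range_self (Sum.inr j))⟩ : IntermediateField.adjoin k _)
  let T : ZMod p → B → Om k n := fun a c => t (e.symm (a, c))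
  have hT : ∀ a w c, σ a (T w c) = T (w + form (κ c) a) c := fun a w c => by
    simp [T, (s2 a).2, sh]
  have hT0 : ∏ c, T 0 c ≠ 0 := prod_ne_zero_iff.2 fun c _ => ht0 _
  refine torus hε (σ := σ) hx (fun a w => ?_) hE (m1.trans_lt hlt) (fun a => ?_)
    (R := fun j w => ∏ c with κ c = j, T w c / T 0 c) (T := ∏ c, T 0 c)
    (fun j w => prod_mem fun c _ => ?_) ?_ (fun j => ?_) (fun a j w => ?_) (fun a => ?_) ?_ hv gv
    (τ := τ) (fun m a => ?_) fun m j => ?_
  · rcases w with q | l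
    · exact Submodule.subset_span ⟨.inl (q.1, sh e κ a q.2), (s1 a _ _).symm⟩
    · show σ a (if l = z then δ else y l) ∈ _
      split_ifs
      · rwa [(s2 a).1]
      · exact s4 a l ▸ hys _
  · refine m4 ((M.restrictScalars k).comap (σ a)) (fun a' c => ?_) ?_ fun w hw => ?_
    · show σ a _ ∈ M
      exact (s1 a a' c).symm ▸ hEM _ (hPE _ _)
    · show σ a _ ∈ M
      exact (s2 a).1.symm ▸ hEM _ (hsp _ hδs)
    · show σ a _ ∈ M
      exact (s3 a w).symm ▸ m2 w hw
  · rw [← div_div_div_cancel_right₀ hi0]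
    exact div_mem (hw _) (hw _)
  · obtain ⟨r, hr⟩ := hd
    have := mul_mem (prod_mem fun c (_ : c ∈ univ) => hw (e.symm (0, c))) (pow_mem hxd r)
    rwa [prod_div_distrib, prod_const, card_univ, hr, pow_mul,
      div_mul_cancel₀ _ (pow_ne_zero _ (pow_ne_zero _ hi0))] at this
  · exact prod_eq_one fun c _ => div_self (ht0 _)
  · rw [map_prod, ← prod_div_distrib]
    refine prod_congr rfl fun c hc => ?_
    rw [map_div₀, hT, hT, (mem_filter.1 hc).2, zero_add, div_div_div_cancel_right₀ (ht0 _)]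
  · rw [prod_congr rfl fun j _ => prod_congr rfl
      (g := fun c => T (form (κ c) a) c / T 0 c) fun c hc => by rw [(mem_filter.1 hc).2],
      prod_fiberwise, prod_div_distrib, mul_div_cancel₀ _ hT0, map_prod]
    simp only [hT, zero_add]
  · have h1 : ∏ w, ∏ c, T w c = 1 := by
      rw [← Fintype.prod_prod_type', e.symm.prod_comp t]
      simp only [ht, tv]
      rw [prod_div_distrib, prod_pow, prod_const, card_univ, div_self (pow_ne_zero _ hδ0)]
    rw [prod_comm]
    simp only [prod_fiberwise, prod_div_distrib, h1, prod_const, card_univ, ZMod.card]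
    exact mul_one_div_cancel (pow_ne_zero _ hT0)
  · refine m4 ((RingHom.eqLocusField ((τ m).comp (σ a) : Om k n →+* Om k n)
      ((φ a).comp (τ m) : Om k n →+* Om k n)).toIntermediateField fun r => ?_)
      (fun a' c => ?_) ?_ fun w _ => ?_
    · show τ m (σ a _) = φ a (τ m _)
      simp
    · show τ m (σ a _) = φ a (τ m _)
      rw [s1, t1, t1, f1]
    · show τ m (σ a _) = φ a (τ m _)
      rw [(s2 a).1, t2, Algebra.smul_def, map_mul, AlgHom.commutes, (fd _ a (f2 a)).1]
    · show τ m (σ a _) = φ a (τ m _)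
      rw [s3, u3]
  · simp only [map_prod, map_div₀, T, t3, pow_zero, one_mul]
    rw [Algebra.smul_def, map_pow, ← t4 j, ← prod_pow, ← prod_mul_distrib]
    exact prod_congr rfl fun c _ => by rw [div_pow, div_mul_div_comm]

theorem lower_bound (k : Type*) [Field k] [CharZero k] [IsAlgClosed k] {p n d : ℕ} [NeZero n]
    (hp : p.Prime) (hd : d * p ∣ n) (hn : 3 * p ≤ n) {Y : Matrix (Fin n) (Fin n) (Fn k (Fin n))}
    (hY : IsEquivariant Y) (hle : entries k Y ≤ quot k (gen k (Fin n)) d) :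
    (p : Cardinal) ≤ IntermediateField.relrank (entries k Y) (quot k (gen k (Fin n)) d) := by
  by_contra! hlt
  rw [IntermediateField.relrank_eq_rank_of_le hle] at hlt
  have := Module.rank_lt_aleph0_iff.1 (hlt.trans Cardinal.natCast_lt_aleph0)
  rw [← Module.finrank_eq_rank, Nat.cast_lt] at hlt
  have := Fact.mk hp
  obtain ⟨r, hr⟩ := hd
  have hd0 : 0 < d := Nat.pos_of_ne_zero fun h => NeZero.ne n (by simp [hr, h])
  have h3 : 3 ≤ d * r := Nat.le_of_mul_le_mul_right (hn.trans_eq (by rw [hr]; ring)) hp.pos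
  obtain ⟨κ, hκ⟩ := (Fin.castLE_injective h3).hasLeftInverse
  obtain ⟨e⟩ : Nonempty (Fin n ≃ ZMod p × Fin (d * r)) := Fintype.card_eq.1 (by
    simp only [Fintype.card_fin, Fintype.card_prod, ZMod.card, hr]
    ring)
  obtain ⟨q, hq⟩ : ∃ q : Fin n × Fin n, gen k (Fin n) q.1 q.2 ≠ 0 := by
    by_contra! h
    have h1 : gen k (Fin n) = 0 := Matrix.ext fun a b => h (a, b)
    have h2 := RingHom.map_det (algebraMap _ (Fn k (Fin n))) (acoord k (Fin n))
    rw [det_acoord, map_one, RingHom.mapMatrix_apply, ← gen, h1, det_zero] at h2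
    exact one_ne_zero h2
  obtain ⟨d, rfl⟩ := Nat.exists_eq_succ_of_ne_zero hd0.ne'
  have k2 : gen k (Fin n) q.1 q.2 ^ (d + 1) ∈ quot k (gen k (Fin n)) (d + 1) :=
    IntermediateField.subset_adjoin k _ ⟨fun _ => q, by simp⟩
  refine no_small e hκ hd0 (by simp) hq (fun a c => ?_) k2 hY hle hlt
  have := div_mem (IntermediateField.subset_adjoin k _
    ⟨Fin.cons (a, c) fun _ => q, rfl⟩ : _ ∈ quot k (gen k (Fin n)) (d + 1)) k2
  refine (congrArg (· ∈ quot k (gen k (Fin n)) (d + 1)) ?_).mp this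
  simp [Fin.prod_univ_succ, pow_succ, mul_comm, mul_div_mul_right _ _ (pow_ne_zero d hq)]

theorem isGeneric_map {K L : Type*} [Field K] [Field L] [Algebra k K] [Algebra k L]
    (g : K →ₐ[k] L) (X : Matrix n n K) : IsGeneric k (X.map g) ↔ IsGeneric k X :=
  forall_congr' fun f => iff_congr (by
    rw [← map_eq_zero_iff g g.injective, MvPolynomial.comp_aeval_apply]
    rfl) Iff.rfl

/-- generic points exist -/
theorem isGeneric_gen [Nonempty n] : IsGeneric k (gen k n) := fun f => by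
  have h : (IsScalarTower.toAlgHom k (Aff k n) (Fn k n)).comp (Ideal.Quotient.mkₐ k (rel k n)) =
      MvPolynomial.aeval fun q : n × n => gen k n q.1 q.2 :=
    MvPolynomial.algHom_ext fun q => (MvPolynomial.aeval_X (fun q : n × n => gen k n q.1 q.2) q).symm
  rw [← h, ← Ideal.mem_span_singleton, ← rel, ← Ideal.Quotient.eq_zero_iff_mem]
  exact map_eq_zero_iff _ (IsFractionRing.injective (Aff k n) (Fn k n))

theorem exists_gen_hom [Nonempty n] {K : Type*} [Field K] [Algebra k K] {X : Matrix n n K}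
    (hX : IsGeneric k X) : ∃ ι : Fn k n →ₐ[k] K, (gen k n).map ι = X := by
  have h1 : X.det = 1 := by
    have := (hX _).2 dvd_rfl
    rwa [map_sub, map_one, AlgHom.map_det, mvPolynomialX_mapMatrix_aeval, sub_eq_zero] at this
  obtain ⟨φ, hφ⟩ := exists_lift (k := k) X h1
  have h2 : Function.Injective φ := (injective_iff_map_eq_zero φ).2 fun a ha => by
    obtain ⟨f, rfl⟩ := Ideal.Quotient.mk_surjective a
    have h3 : φ.comp (Ideal.Quotient.mkₐ k (rel k n)) =
        MvPolynomial.aeval fun q : n × n => X q.1 q.2 :=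
      MvPolynomial.algHom_ext fun q => (congrFun (congrFun hφ q.1) q.2).trans
        (MvPolynomial.aeval_X (fun q : n × n => X q.1 q.2) q).symm
    exact Ideal.Quotient.eq_zero_iff_mem.2 (Ideal.mem_span_singleton.2
      ((hX f).1 ((DFunLike.congr_fun h3 f).symm.trans ha)))
  exact ⟨IsFractionRing.liftAlgHom h2, hφ ▸ Matrix.ext fun a b => by simp [gen]⟩

theorem lower_bound_generic (k : Type*) [Field k] [CharZero k] [IsAlgClosed k] {K : Type*}
    [Field K] [Algebra k K] {p n d : ℕ} (hp : p.Prime) (hd : d * p ∣ n) (hn : 3 * p ≤ n)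
    {X Y : Matrix (Fin n) (Fin n) K} (hX : IsGeneric k X) (hq : ∀ i j, Y i j ∈ quot k X d)
    (htr : Y.trace = 0) (hY : ∀ h : SpecialLinearGroup (Fin n) k, ∃ σ : K →ₐ[k] K,
      X.map σ = conj h X ∧ Y.map σ = conj h Y) :
    (p : Cardinal) ≤ IntermediateField.relrank (entries k Y) (quot k X d) := by
  have : NeZero n := ⟨by have := hp.pos; omega⟩
  obtain ⟨ι, rfl⟩ := exists_gen_hom hX
  have h1 : quot k ((gen k (Fin n)).map ι) d = (quot k (gen k (Fin n)) d).map ι := by
    rw [quot, quot, IntermediateField.adjoin_map, ← Set.range_comp]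
    simp [Function.comp_def]
  rw [h1] at hq ⊢
  choose Z hZ hZ' using hq
  obtain rfl : (of Z).map ι = Y := Matrix.ext hZ'
  have h2 : entries k ((of Z).map ι) = (entries k (of Z)).map ι := by
    rw [entries, entries, IntermediateField.adjoin_map, ← Set.range_comp]
    rfl
  have h3 := lower_bound k hp hd hn (Y := of Z) ⟨ι.injective ?_, fun h => ?_⟩
    (IntermediateField.adjoin_le_iff.2 (Set.range_subset_iff.2 fun q => hZ q.1 q.2))
  · rw [h2, ← Cardinal.lift_le, IntermediateField.lift_relrank_map_map, Cardinal.lift_natCast]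
    exact Cardinal.nat_le_lift_iff.2 h3
  · exact (AddMonoidHom.map_trace ι _).trans (htr.trans (map_zero ι).symm)
  obtain ⟨σ, s1, s2⟩ := hY h
  rw [← map_conj] at s1 s2
  obtain ⟨τ, hτ⟩ := exists_gen_hom ((isGeneric_map ι _).1 (s1 ▸ (isGeneric_map σ _).2 hX))
  have h4 : ι.comp τ = σ.comp ι := fn_ext (by
    rw [AlgHom.coe_comp, AlgHom.coe_comp, ← Matrix.map_map, ← Matrix.map_map, hτ, s1])
  refine ⟨τ, hτ, Matrix.map_injective ι.injective ?_⟩
  show ((of Z).map τ).map ι = (conj h (of Z)).map ι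
  rw [← s2, Matrix.map_map, Matrix.map_map, ← AlgHom.coe_comp, h4, AlgHom.coe_comp]

end Pool.Agent.Work.MP_274868_ag.Cay
end
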